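import Mathlib

/-!
# Words in two letters, the shuffle product and deconcatenation
-/

set_option autoImplicit false

namespace Pool.Agent.X142.PL

/-- the weight of a word -/
def wt : List Bool → ℕ
  | [] => 0
  | _ :: w => 1 + wt w

@[simp] lemma wt_nil : wt [] = 0 := rfl
@[simp] lemma wt_cons (a : Bool) (w : List Bool) : wt (a :: w) = 1 + wt w := rfl

/-- the shuffle product of two words, as a list of words -/
def qs : List Bool → List Bool → List (List Bool)
  | [], v => [v]
  | a :: u, [] => [a :: u]
  | a :: u, b :: v => (qs u (b :: v)).map (List.cons a) ++ (qs (a :: u) v).map (List.cons b)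
termination_by u v => u.length + v.length

lemma qs_nil_left (v : List Bool) : qs [] v = [v] := by rw [qs]

lemma qs_nil_right (u : List Bool) : qs u [] = [u] := by
  cases u <;> rw [qs]

lemma qs_cons (a b : Bool) (u v : List Bool) : qs (a :: u) (b :: v) =
    (qs u (b :: v)).map (List.cons a) ++ (qs (a :: u) v).map (List.cons b) := by rw [qs]

/-- the ways to write a word as a concatenation -/
def splits : List Bool → List (List Bool × List Bool)
  | [] => [([], [])]
  | a :: w => ([], a :: w) :: (splits w).map fun p => (a :: p.1, p.2)

lemma splits_nil : splits [] = [([], [])] := rfl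

lemma splits_cons (a : Bool) (w : List Bool) :
    splits (a :: w) = ([], a :: w) :: (splits w).map fun p => (a :: p.1, p.2) := rfl

section

variable {M : Type} [AddCommMonoid M]

/-- sum over a list -/
def S {α : Type} (l : List α) (f : α → M) : M := (l.map f).sum

lemma S_nil {α : Type} (f : α → M) : S [] f = 0 := rfl

lemma S_cons {α : Type} (a : α) (l : List α) (f : α → M) : S (a :: l) f = f a + S l f := by simp [S]

lemma S_append {α : Type} (l l' : List α) (f : α → M) : S (l ++ l') f = S l f + S l' f := by simp [S]

lemma S_map {α β : Type} (l : List α) (g : α → β) (f : β → M) : S (l.map g) f = S l fun x => f (g x) := by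
  simp [S, Function.comp_def]

lemma S_single {α : Type} (a : α) (f : α → M) : S [a] f = f a := by simp [S]

lemma S_add {α : Type} (l : List α) (f g : α → M) : (S l fun x => f x + g x) = S l f + S l g := by
  induction l with
  | nil => simp [S]
  | cons a l ih => rw [S_cons, S_cons, S_cons, ih]; abel

lemma S_congr {α : Type} {l : List α} {f g : α → M} (h : ∀ x ∈ l, f x = g x) : S l f = S l g := by
  unfold S
  rw [List.map_congr_left h]

lemma S_zero {α : Type} (l : List α) : (S l fun _ => (0 : M)) = 0 := by
  induction l with
  | nil => rfl
  | cons a l ih => rw [S_cons, ih, zero_add]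

lemma S_hom {N : Type} [AddCommMonoid N] {α : Type} (l : List α) (f : α → M) (φ : M →+ N) :
    φ (S l f) = S l fun x => φ (f x) := by
  induction l with
  | nil => simp [S]
  | cons a l ih => rw [S_cons, S_cons, map_add, ih]

/-- the weight is additive -/
lemma wt_qs : ∀ (u v : List Bool), ∀ w ∈ qs u v, wt w = wt u + wt v
  | [], v, w, hw => by
    rw [qs_nil_left, List.mem_singleton] at hw
    simp [hw]
  | a :: u, [], w, hw => by
    rw [qs_nil_right, List.mem_singleton] at hw
    simp [hw]
  | a :: u, b :: v, w, hw => by
    rw [qs_cons, List.mem_append, List.mem_map, List.mem_map] at hw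
    rcases hw with ⟨w', hw', rfl⟩ | ⟨w', hw', rfl⟩
    · have := wt_qs u (b :: v) w' hw'
      simp only [wt_cons] at this ⊢
      omega
    · have := wt_qs (a :: u) v w' hw'
      simp only [wt_cons] at this ⊢
      omega
termination_by u v => u.length + v.length

lemma qs_ne_nil : ∀ (u v : List Bool), u ≠ [] → ∀ w ∈ qs u v, w ≠ [] := by
  intro u v hu w hw h
  have h1 := wt_qs u v w hw
  rw [h] at h1
  cases u with
  | nil => exact hu rfl
  | cons a u =>
    simp only [wt_cons, wt_nil] at h1
    omega

/-- deconcatenation is multiplicative -/
theorem coprod : ∀ (u v : List Bool) (h : List Bool → List Bool → M),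
    (S (qs u v) fun w => S (splits w) fun p => h p.1 p.2) =
      S (splits u) fun p => S (splits v) fun q => S (qs p.1 q.1) fun w => S (qs p.2 q.2) fun w' => h w w'
  | [], v, h => by
    rw [qs_nil_left, S_single, splits_nil, S_single]
    refine S_congr fun q _ => ?_
    simp only [qs_nil_left, S_single]
  | a :: u, [], h => by
    rw [qs_nil_right, S_single]
    refine S_congr fun q _ => ?_
    rw [splits_nil, S_single]
    simp only [qs_nil_right, S_single]
  | a :: u, b :: v, h => by
    have ih1 := coprod u (b :: v) fun p q => h (a :: p) q
    have ih2 := coprod (a :: u) v fun p q => h (b :: p) q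
    have hL : (S (qs (a :: u) (b :: v)) fun w => S (splits w) fun p => h p.1 p.2) =
        (S (qs (a :: u) (b :: v)) fun w => h [] w) +
        ((S (qs u (b :: v)) fun w => S (splits w) fun p => h (a :: p.1) p.2) +
        (S (qs (a :: u) v) fun w => S (splits w) fun p => h (b :: p.1) p.2)) := by
      rw [qs_cons]
      simp only [S_append, S_map, splits_cons, S_cons, S_add]
      abel
    rw [hL, ih1, ih2]
    simp only [splits_cons, S_cons, S_map, qs_nil_left, qs_nil_right, qs_cons, S_append, S_add, S_nil,
      S_zero, add_zero]
    abel
termination_by u v => u.length + v.length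

end

/-- finitely many words of given weight -/
lemma wt_eq_length : ∀ w : List Bool, wt w = w.length
  | [] => rfl
  | _ :: w => by rw [wt_cons, List.length_cons, wt_eq_length w, add_comm]

lemma finite_wt (n : ℕ) : {w : List Bool | wt w = n}.Finite := by
  simp only [wt_eq_length]
  exact List.finite_length_eq Bool n

/-- admissible words: empty, or the last letter is `true` -/
def adm : List Bool → Prop
  | [] => True
  | [a] => a = true
  | _ :: b :: w => adm (b :: w)

lemma adm_nil : adm [] := trivial

lemma adm_tail {a : Bool} {w : List Bool} (h : adm (a :: w)) : adm w := by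
  cases w with
  | nil => exact trivial
  | cons b w => exact h

lemma adm_cons {a : Bool} {w : List Bool} (hw : w ≠ []) (h : adm w) : adm (a :: w) := by
  cases w with
  | nil => exact absurd rfl hw
  | cons b w => exact h

lemma adm_qs : ∀ (u v : List Bool), adm u → adm v → ∀ w ∈ qs u v, adm w
  | [], v, _, hv, w, hw => by
    rw [qs_nil_left, List.mem_singleton] at hw
    rw [hw]
    exact hv
  | a :: u, [], hu, _, w, hw => by
    rw [qs_nil_right, List.mem_singleton] at hw
    rw [hw]
    exact hu
  | a :: u, b :: v, hu, hv, w, hw => by
    rw [qs_cons, List.mem_append, List.mem_map, List.mem_map] at hw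
    rcases hw with ⟨w', hw', rfl⟩ | ⟨w', hw', rfl⟩
    · refine adm_cons ?_ (adm_qs u (b :: v) (adm_tail hu) hv w' hw')
      intro h
      have h1 := wt_qs u (b :: v) w' hw'
      rw [h] at h1
      simp only [wt_cons, wt_nil] at h1
      omega
    · refine adm_cons ?_ (adm_qs (a :: u) v hu (adm_tail hv) w' hw')
      intro h
      have h1 := wt_qs (a :: u) v w' hw'
      rw [h] at h1
      simp only [wt_cons, wt_nil] at h1
      omega
termination_by u v => u.length + v.length

lemma adm_splits : ∀ (w : List Bool), adm w → ∀ p ∈ splits w, adm p.2
  | [], _, p, hp => by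
    rw [splits_nil, List.mem_singleton] at hp
    rw [hp]
    exact trivial
  | a :: w, h, p, hp => by
    rw [splits_cons, List.mem_cons, List.mem_map] at hp
    rcases hp with rfl | ⟨q, hq, rfl⟩
    · exact h
    · exact adm_splits w (adm_tail h) q hq

/-- commutativity -/
theorem qs_comm {M : Type} [AddCommMonoid M] : ∀ (u v : List Bool) (h : List Bool → M),
    S (qs u v) h = S (qs v u) h
  | [], v, h => by rw [qs_nil_left, qs_nil_right]
  | a :: u, [], h => by rw [qs_nil_left, qs_nil_right]
  | a :: u, b :: v, h => by
    have ih1 := qs_comm u (b :: v) fun w => h (a :: w)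
    have ih2 := qs_comm (a :: u) v fun w => h (b :: w)
    rw [qs_cons, qs_cons]
    simp only [S_append, S_map]
    rw [ih1, ih2]
    abel
termination_by u v => u.length + v.length

/-- associativity -/
theorem qs_assoc {M : Type} [AddCommMonoid M] : ∀ (u v x : List Bool) (h : List Bool → M),
    (S (qs u v) fun w => S (qs w x) h) = S (qs v x) fun w => S (qs u w) h
  | [], v, x, h => by
    rw [qs_nil_left, S_single]
    refine S_congr fun w _ => ?_
    rw [qs_nil_left, S_single]
  | a :: u, [], x, h => by
    rw [qs_nil_left, qs_nil_right, S_single, S_single]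
  | a :: u, b :: v, [], h => by
    rw [qs_nil_right, S_single]
    refine S_congr fun w _ => ?_
    rw [qs_nil_right, S_single]
  | a :: u, b :: v, c :: x, h => by
    have i1 := qs_assoc u (b :: v) (c :: x) fun w => h (a :: w)
    have i3 := qs_assoc (a :: u) v (c :: x) fun w => h (b :: w)
    have i7 := qs_assoc (a :: u) (b :: v) x fun w => h (c :: w)
    have hL : (S (qs (a :: u) (b :: v)) fun w => S (qs w (c :: x)) h) =
        (S (qs u (b :: v)) fun w => S (qs w (c :: x)) fun w => h (a :: w)) +
        ((S (qs (a :: u) v) fun w => S (qs w (c :: x)) fun w => h (b :: w)) +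
        (S (qs (a :: u) (b :: v)) fun w => S (qs w x) fun w => h (c :: w))) := by
      rw [qs_cons]
      simp only [S_append, S_map, qs_cons, S_add]
      abel
    have hR : (S (qs (b :: v) (c :: x)) fun w => S (qs (a :: u) w) h) =
        (S (qs (b :: v) (c :: x)) fun w => S (qs u w) fun w => h (a :: w)) +
        ((S (qs v (c :: x)) fun w => S (qs (a :: u) w) fun w => h (b :: w)) +
        (S (qs (b :: v) x) fun w => S (qs (a :: u) w) fun w => h (c :: w))) := by
      rw [qs_cons b c v x]
      simp only [S_append, S_map, qs_cons, S_add]
      abel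
    rw [hL, hR, i1, i3, i7]
termination_by u v x => u.length + v.length + x.length

end Pool.Agent.X142.PL
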