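import Mathlib
import Pool.Agent.X142.PL.Words

/-!
# Multiple polylogarithms in one variable
-/

set_option autoImplicit false

namespace Pool.Agent.X142.PL

open Filter Topology PowerSeries

/-- the coefficients (`false`: integration against `dz / z`, `true`: against `dz / (1 - z)`) -/
def cc : List Bool → ℕ → ℚ
  | [], n => if n = 0 then 1 else 0
  | false :: w, n => cc w n / n
  | true :: w, n => (∑ k ∈ Finset.range n, cc w k) / n

lemma cc_zero {w : List Bool} (hw : w ≠ []) : cc w 0 = 0 := by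
  match w, hw with
  | false :: w, _ => rw [cc, Nat.cast_zero, div_zero]
  | true :: w, _ => rw [cc, Nat.cast_zero, div_zero]

lemma cc_abs : ∀ (w : List Bool) (n : ℕ), |cc w n| ≤ 1
  | [], n => by
    rw [cc]
    split_ifs <;> simp
  | false :: w, n => by
    rw [cc, abs_div]
    rcases Nat.eq_zero_or_pos n with rfl | hn
    · simp
    · have h1 : (1 : ℚ) ≤ n := by exact_mod_cast hn
      rw [div_le_one (by rw [abs_pos]; positivity), abs_of_nonneg (by positivity : (0 : ℚ) ≤ n)]
      exact (cc_abs w n).trans h1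
  | true :: w, n => by
    rw [cc, abs_div]
    rcases Nat.eq_zero_or_pos n with rfl | hn
    · simp
    · rw [div_le_one (by rw [abs_pos]; positivity), abs_of_nonneg (by positivity : (0 : ℚ) ≤ n)]
      refine (Finset.abs_sum_le_sum_abs _ _).trans ?_
      refine (Finset.sum_le_sum fun k _ => cc_abs w k).trans ?_
      simp

/-- the power series -/
noncomputable def pw (w : List Bool) : ℚ⟦X⟧ := PowerSeries.mk (cc w)

lemma coeff_pw (w : List Bool) (n : ℕ) : coeff n (pw w) = cc w n := coeff_mk n _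

lemma D0 {w : List Bool} (hw : w ≠ []) : X * derivative ℚ (pw (false :: w)) = pw w := by
  ext n
  cases n with
  | zero => rw [coeff_zero_X_mul, coeff_pw, cc_zero hw]
  | succ n =>
    rw [coeff_succ_X_mul, coeff_derivative, coeff_pw, coeff_pw, cc]
    have h1 : ((n : ℚ) + 1) ≠ 0 := by positivity
    push_cast
    rw [div_mul_cancel₀ _ h1]

lemma D1 (w : List Bool) : (1 - X) * derivative ℚ (pw (true :: w)) = pw w := by
  have h0 : ∀ n : ℕ, coeff n (derivative ℚ (pw (true :: w))) = ∑ k ∈ Finset.range (n + 1), cc w k := by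
    intro n
    rw [coeff_derivative, coeff_pw, cc]
    have h1 : ((n : ℚ) + 1) ≠ 0 := by positivity
    push_cast
    rw [div_mul_cancel₀ _ h1]
  ext n
  rw [sub_mul, one_mul, map_sub, h0, coeff_pw]
  cases n with
  | zero => rw [coeff_zero_X_mul, zero_add, Finset.sum_range_one, sub_zero]
  | succ n => rw [coeff_succ_X_mul, h0, Finset.sum_range_succ, add_sub_cancel_left]

/-- the operator `X (1 - X) d/dX` -/
noncomputable def DD : ℚ⟦X⟧ →+ ℚ⟦X⟧ where
  toFun f := X * (1 - X) * derivative ℚ f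
  map_zero' := by rw [map_zero, mul_zero]
  map_add' f g := by rw [map_add, mul_add]

lemma DD_mul (f g : ℚ⟦X⟧) : DD (f * g) = DD f * g + f * DD g := by
  show X * (1 - X) * derivative ℚ (f * g) = X * (1 - X) * derivative ℚ f * g + f * (X * (1 - X) * derivative ℚ g)
  rw [Derivation.leibniz, smul_eq_mul, smul_eq_mul]
  ring

/-- the factors -/
noncomputable def kap : Bool → ℚ⟦X⟧
  | false => 1 - X
  | true => X

lemma DD_pw {a : Bool} {w : List Bool} (h : a = false → w ≠ []) : DD (pw (a :: w)) = kap a * pw w := by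
  cases a with
  | false =>
    show X * (1 - X) * derivative ℚ (pw (false :: w)) = (1 - X) * pw w
    rw [← D0 (h rfl)]
    ring
  | true =>
    show X * (1 - X) * derivative ℚ (pw (true :: w)) = X * pw w
    rw [← D1 w]
    ring

lemma DD_inj {f : ℚ⟦X⟧} (h : DD f = 0) (h0 : constantCoeff f = 0) : f = 0 := by
  have h1 : (X : ℚ⟦X⟧) * (1 - X) ≠ 0 := by
    refine mul_ne_zero X_ne_zero ?_
    intro h
    have h2 := congrArg (constantCoeff (R := ℚ)) h
    simp at h2
  have h2 : derivative ℚ f = 0 := by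
    have h3 : X * (1 - X) * derivative ℚ f = 0 := h
    exact (mul_eq_zero.1 h3).resolve_left h1
  refine derivative.ext ?_ ?_
  · rw [h2, map_zero]
  · rw [h0, map_zero]

lemma adm_first {a : Bool} {w : List Bool} (h : adm (a :: w)) : a = false → w ≠ [] := by
  rintro rfl rfl
  exact Bool.false_ne_true h

/-- the product formula -/
theorem pw_mul : ∀ (u v : List Bool), adm u → adm v → pw u * pw v = S (qs u v) pw
  | [], v, _, _ => by
    rw [qs_nil_left, S_single]
    have h1 : pw [] = 1 := by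
      ext n
      rw [coeff_pw, coeff_one, cc]
    rw [h1, one_mul]
  | a :: u, [], _, _ => by
    rw [qs_nil_right, S_single]
    have h1 : pw [] = 1 := by
      ext n
      rw [coeff_pw, coeff_one, cc]
    rw [h1, mul_one]
  | a :: u, b :: v, hu, hv => by
    have ih1 := pw_mul u (b :: v) (adm_tail hu) hv
    have ih2 := pw_mul (a :: u) v hu (adm_tail hv)
    have hS : ∀ (c : Bool) (l : List (List Bool)), (∀ w ∈ l, w ≠ []) →
        DD (S (l.map (List.cons c)) pw) = kap c * S l pw := by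
      intro c l hl
      rw [S_map, S_hom]
      have h1 : (S l fun x => DD (pw (c :: x))) = S l fun x => kap c * pw x :=
        S_congr fun w hw => DD_pw fun _ => hl w hw
      rw [h1]
      exact (S_hom l pw (AddMonoidHom.mulLeft (kap c))).symm
    have hne1 : ∀ w ∈ qs u (b :: v), w ≠ [] := by
      intro w hw h
      have h1 := wt_qs u (b :: v) w hw
      rw [h, wt_nil, wt_cons] at h1
      omega
    have hne2 : ∀ w ∈ qs (a :: u) v, w ≠ [] := by
      intro w hw h
      have h1 := wt_qs (a :: u) v w hw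
      rw [h, wt_nil, wt_cons] at h1
      omega
    have hz : ∀ (c : Bool) (l : List (List Bool)), constantCoeff (S (l.map (List.cons c)) pw) = 0 := by
      intro c l
      have h1 := S_hom l (fun w => pw (c :: w)) ((constantCoeff (R := ℚ) : ℚ⟦X⟧ →+* ℚ) : ℚ⟦X⟧ →+ ℚ)
      rw [S_map]
      refine h1.trans ?_
      have h2 : (S l fun x => ((constantCoeff (R := ℚ) : ℚ⟦X⟧ →+* ℚ) : ℚ⟦X⟧ →+ ℚ) (pw (c :: x))) =
          S l fun _ => (0 : ℚ) := by
        refine S_congr fun x _ => ?_
        show constantCoeff (pw (c :: x)) = 0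
        rw [← coeff_zero_eq_constantCoeff_apply, coeff_pw, cc_zero (List.cons_ne_nil _ _)]
      rw [h2, S_zero]
    rw [← sub_eq_zero]
    refine DD_inj ?_ ?_
    · rw [map_sub, DD_mul, DD_pw (adm_first hu), DD_pw (adm_first hv), qs_cons, S_append, map_add,
        hS a _ hne1, hS b _ hne2, ← ih1, ← ih2]
      ring
    · rw [map_sub, map_mul, qs_cons, S_append, map_add, hz, hz,
        ← coeff_zero_eq_constantCoeff_apply (pw (a :: u)), coeff_pw, cc_zero (List.cons_ne_nil _ _)]
      ring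
termination_by u v => u.length + v.length

/-- values -/
noncomputable def ev (K : Type) [NormedField K] (w : List Bool) (x : K) : K := ∑' n : ℕ, (cc w n : K) * x ^ n

theorem ev_mul {K : Type} [NormedField K] [CompleteSpace K] [CharZero K] {x : K}
    (hs : ∀ w, Summable fun n : ℕ => ‖(cc w n : K) * x ^ n‖) {u v : List Bool} (hu : adm u) (hv : adm v) :
    ev K u x * ev K v x = S (qs u v) fun w => ev K w x := by
  have h1 := tsum_mul_tsum_eq_tsum_sum_antidiagonal_of_summable_norm (hs u) (hs v)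
  rw [ev, ev, h1]
  have h2 : ∀ n : ℕ, ∑ kl ∈ Finset.HasAntidiagonal.antidiagonal n, (cc u kl.1 : K) * x ^ kl.1 * ((cc v kl.2 : K) * x ^ kl.2) =
      S (qs u v) fun w => (cc w n : K) * x ^ n := by
    intro n
    have h3 := congrArg (coeff n) (pw_mul u v hu hv)
    rw [coeff_mul] at h3
    simp only [coeff_pw] at h3
    have h4 := S_hom (qs u v) pw ((coeff (R := ℚ) n).toAddMonoidHom)
    have h5 : coeff n (S (qs u v) pw) = S (qs u v) fun w => cc w n :=
      h4.trans (S_congr fun w _ => coeff_pw w n)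
    rw [h5] at h3
    have h6 := S_hom (qs u v) (fun w => cc w n)
      ((AddMonoidHom.mulRight (x ^ n)).comp ((Rat.castHom K : ℚ →+* K) : ℚ →+ K))
    have h7 : (S (qs u v) fun w => (cc w n : K) * x ^ n) = ((S (qs u v) fun w => cc w n : ℚ) : K) * x ^ n :=
      h6.symm
    rw [h7, ← h3]
    push_cast
    rw [Finset.sum_mul]
    refine Finset.sum_congr rfl fun kl hkl => ?_
    rw [← Finset.HasAntidiagonal.mem_antidiagonal.1 hkl, pow_add]
    ring
  simp only [h2]
  have h8 : ∀ l : List (List Bool), (∑' n : ℕ, S l fun w => (cc w n : K) * x ^ n) = (S l fun w => ev K w x) ∧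
      Summable fun n : ℕ => S l fun w => (cc w n : K) * x ^ n := by
    intro l
    induction l with
    | nil => exact ⟨by simp [S_nil], by simp only [S_nil]; exact summable_zero⟩
    | cons a l ih =>
      have h9 : Summable fun n : ℕ => (cc a n : K) * x ^ n := (hs a).of_norm
      simp only [S_cons]
      exact ⟨by rw [h9.tsum_add ih.2, ih.1]; rfl, h9.add ih.2⟩
  exact (h8 _).1

/-! ### The complex functions -/

lemma cc_norm (w : List Bool) (n : ℕ) : ‖((cc w n : ℚ) : ℂ)‖ ≤ 1 := by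
  have h1 : ((cc w n : ℚ) : ℂ) = (((cc w n : ℚ) : ℝ) : ℂ) := by push_cast; rfl
  rw [h1, Complex.norm_real, Real.norm_eq_abs]
  exact_mod_cast cc_abs w n

lemma term_norm (w : List Bool) {x : ℂ} {r : ℝ} (hx : ‖x‖ ≤ r) (n : ℕ) :
    ‖((cc w n : ℚ) : ℂ) * x ^ n‖ ≤ r ^ n := by
  rw [norm_mul, norm_pow]
  have hr : 0 ≤ r := (norm_nonneg x).trans hx
  calc ‖((cc w n : ℚ) : ℂ)‖ * ‖x‖ ^ n ≤ 1 * r ^ n :=
        mul_le_mul (cc_norm w n) (pow_le_pow_left₀ (norm_nonneg x) hx n) (by positivity) zero_le_one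
    _ = r ^ n := one_mul _

lemma summable_C {x : ℂ} (hx : ‖x‖ < 1) (w : List Bool) : Summable fun n : ℕ => ‖((cc w n : ℚ) : ℂ) * x ^ n‖ :=
  Summable.of_nonneg_of_le (fun _ => norm_nonneg _) (term_norm w le_rfl)
    (summable_geometric_of_lt_one (norm_nonneg x) hx)

/-- the derivative of the series -/
lemma hasDerivAt_ev (w : List Bool) {z : ℂ} (hz : ‖z‖ < 1) :
    HasDerivAt (fun z => ev ℂ w z) (∑' n : ℕ, ((cc w (n + 1) : ℚ) : ℂ) * ((n : ℂ) + 1) * z ^ n) z := by
  obtain ⟨r, hzr, hr1⟩ := exists_between hz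
  have hr0 : 0 ≤ r := (norm_nonneg z).trans hzr.le
  have hsum : Summable fun n : ℕ => (n : ℝ) ^ 1 * r ^ (n - 1) := by
    have h1 : Summable fun n : ℕ => ((n + 1 : ℕ) : ℝ) ^ 1 * r ^ n := by
      have h2 := summable_pow_mul_geometric_of_norm_lt_one (R := ℝ) 1 (r := r)
        (by rwa [Real.norm_eq_abs, abs_of_nonneg hr0])
      have h3 := summable_geometric_of_lt_one hr0 hr1
      refine (h2.add h3).congr fun n => ?_
      push_cast
      ring
    rw [← summable_nat_add_iff 1]
    refine h1.congr fun n => ?_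
    rw [Nat.add_sub_cancel]
  have h1 : HasDerivAt (fun z => ∑' n : ℕ, ((cc w n : ℚ) : ℂ) * z ^ n)
      (∑' n : ℕ, ((cc w n : ℚ) : ℂ) * ((n : ℂ) * z ^ (n - 1))) z := by
    refine hasDerivAt_tsum_of_isPreconnected (𝕜 := ℂ) (F := ℂ) (u := fun n : ℕ => (n : ℝ) ^ 1 * r ^ (n - 1))
      (g := fun (n : ℕ) (z : ℂ) => ((cc w n : ℚ) : ℂ) * z ^ n)
      (g' := fun (n : ℕ) (z : ℂ) => ((cc w n : ℚ) : ℂ) * ((n : ℂ) * z ^ (n - 1))) (t := Metric.ball 0 r)
      (y₀ := 0) (y := z) hsum Metric.isOpen_ball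
      (convex_ball (0 : ℂ) r).isPreconnected ?_ ?_
      (Metric.mem_ball_self (lt_of_le_of_lt (norm_nonneg z) hzr)) ?_
      (by rwa [Metric.mem_ball, dist_zero_right])
    · intro n y _
      exact (hasDerivAt_pow n y).const_mul _
    · intro n y hy
      rw [Metric.mem_ball, dist_zero_right] at hy
      rw [norm_mul, norm_mul, norm_pow, Complex.norm_natCast, pow_one]
      calc ‖((cc w n : ℚ) : ℂ)‖ * ((n : ℝ) * ‖y‖ ^ (n - 1)) ≤ 1 * ((n : ℝ) * r ^ (n - 1)) := by
            refine mul_le_mul (cc_norm w n) ?_ (by positivity) zero_le_one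
            exact mul_le_mul_of_nonneg_left (pow_le_pow_left₀ (norm_nonneg y) hy.le _) (Nat.cast_nonneg n)
        _ = (n : ℝ) * r ^ (n - 1) := one_mul _
    · exact (summable_C (by simp) w).of_norm
  have h2 : (∑' n : ℕ, ((cc w n : ℚ) : ℂ) * ((n : ℂ) * z ^ (n - 1))) =
      ∑' n : ℕ, ((cc w (n + 1) : ℚ) : ℂ) * ((n : ℂ) + 1) * z ^ n := by
    have hs2 : Summable fun n : ℕ => ((cc w n : ℚ) : ℂ) * ((n : ℂ) * z ^ (n - 1)) := by
      refine Summable.of_norm_bounded hsum fun n => ?_
      rw [norm_mul, norm_mul, norm_pow, Complex.norm_natCast, pow_one]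
      calc ‖((cc w n : ℚ) : ℂ)‖ * ((n : ℝ) * ‖z‖ ^ (n - 1)) ≤ 1 * ((n : ℝ) * r ^ (n - 1)) := by
            refine mul_le_mul (cc_norm w n) ?_ (by positivity) zero_le_one
            exact mul_le_mul_of_nonneg_left (pow_le_pow_left₀ (norm_nonneg z) hzr.le _) (Nat.cast_nonneg n)
        _ = (n : ℝ) * r ^ (n - 1) := one_mul _
    rw [hs2.tsum_eq_zero_add, Nat.cast_zero, zero_mul, mul_zero, zero_add]
    refine tsum_congr fun n => ?_
    rw [Nat.add_sub_cancel]
    push_cast
    ring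
  rw [← h2]
  exact h1

lemma tsum_deriv_true (w : List Bool) {z : ℂ} (hz : ‖z‖ < 1) :
    (∑' n : ℕ, ((cc (true :: w) (n + 1) : ℚ) : ℂ) * ((n : ℂ) + 1) * z ^ n) = (1 - z)⁻¹ * ev ℂ w z := by
  have h0 : ∀ n : ℕ, ((cc (true :: w) (n + 1) : ℚ) : ℂ) * ((n : ℂ) + 1) =
      ∑ k ∈ Finset.range (n + 1), ((cc w k : ℚ) : ℂ) := by
    intro n
    rw [cc]
    have h1 : ((n : ℂ) + 1) ≠ 0 := by exact_mod_cast (Nat.succ_ne_zero n)
    push_cast
    rw [div_mul_cancel₀ _ h1]
  have h1 := tsum_mul_tsum_eq_tsum_sum_antidiagonal_of_summable_norm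
    (f := fun n : ℕ => z ^ n) (g := fun n : ℕ => ((cc w n : ℚ) : ℂ) * z ^ n)
    (by simpa using summable_norm_geometric_of_norm_lt_one hz) (summable_C hz w)
  rw [tsum_geometric_of_norm_lt_one hz] at h1
  rw [ev, h1]
  refine tsum_congr fun n => ?_
  rw [h0, Finset.sum_mul, Finset.Nat.antidiagonal_eq_map', Finset.sum_map]
  refine Finset.sum_congr rfl fun k hk => ?_
  have hk' : k ≤ n := Nat.lt_succ_iff.1 (Finset.mem_range.1 hk)
  show ((cc w k : ℚ) : ℂ) * z ^ n = z ^ (n - k) * (((cc w k : ℚ) : ℂ) * z ^ k)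
  rw [mul_left_comm, ← pow_add, Nat.sub_add_cancel hk']

lemma tsum_deriv_false {w : List Bool} (hw : w ≠ []) {z : ℂ} (hz : ‖z‖ < 1) (hz0 : z ≠ 0) :
    (∑' n : ℕ, ((cc (false :: w) (n + 1) : ℚ) : ℂ) * ((n : ℂ) + 1) * z ^ n) = z⁻¹ * ev ℂ w z := by
  have h0 : ∀ n : ℕ, ((cc (false :: w) (n + 1) : ℚ) : ℂ) * ((n : ℂ) + 1) = ((cc w (n + 1) : ℚ) : ℂ) := by
    intro n
    rw [cc]
    have h1 : ((n : ℂ) + 1) ≠ 0 := by exact_mod_cast (Nat.succ_ne_zero n)
    push_cast
    rw [div_mul_cancel₀ _ h1]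
  rw [ev, (summable_C hz w).of_norm.tsum_eq_zero_add, cc_zero hw, Rat.cast_zero, zero_mul, zero_add,
    ← tsum_mul_left]
  refine tsum_congr fun n => ?_
  rw [h0, pow_succ]
  field_simp

/-- the derivatives of the functions -/
lemma hasDerivAt_cons {a : Bool} {w : List Bool} (h : a = false → w ≠ []) {z : ℂ} (hz : ‖z‖ < 1) (hz0 : z ≠ 0) :
    HasDerivAt (fun z => ev ℂ (a :: w) z) ((if a then (1 - z)⁻¹ else z⁻¹) * ev ℂ w z) z := by
  have h1 := hasDerivAt_ev (a :: w) hz
  cases a with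
  | false =>
    rw [tsum_deriv_false (h rfl) hz hz0] at h1
    simpa using h1
  | true =>
    rw [tsum_deriv_true w hz] at h1
    simpa using h1

lemma ev_nil (z : ℂ) : ev ℂ [] z = 1 := by
  rw [ev, tsum_eq_single 0]
  · simp [cc]
  · intro n hn
    simp [cc, hn]

/-- the functions in the variable `t = 1 / z` -/
noncomputable def F (w : List Bool) (t : ℂ) : ℂ := ev ℂ w t⁻¹

lemma F_nil (t : ℂ) : F [] t = 1 := ev_nil _

/-- the domain -/
def Om : Set ℂ := {t | 1 < ‖t‖}

lemma inv_norm_lt {t : ℂ} (ht : t ∈ Om) : ‖t⁻¹‖ < 1 := by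
  rw [norm_inv]
  exact inv_lt_one_of_one_lt₀ ht

lemma Om_ne {t : ℂ} (ht : t ∈ Om) : t ≠ 0 := by
  rintro rfl
  have h1 : (1 : ℝ) < ‖(0 : ℂ)‖ := ht
  rw [norm_zero] at h1
  linarith

theorem F_mul {u v : List Bool} (hu : adm u) (hv : adm v) {t : ℂ} (ht : t ∈ Om) :
    F u t * F v t = S (qs u v) fun w => F w t :=
  ev_mul (summable_C (inv_norm_lt ht)) hu hv

/-- the factors in the variable `t` -/
noncomputable def om : Bool → ℂ → ℂ
  | false, t => -t⁻¹
  | true, t => t⁻¹ - (t - 1)⁻¹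

lemma hasDerivAt_F {a : Bool} {w : List Bool} (h : a = false → w ≠ []) {t : ℂ} (ht : t ∈ Om) :
    HasDerivAt (F (a :: w)) (om a t * F w t) t := by
  have ht0 := Om_ne ht
  have h1 := hasDerivAt_cons h (inv_norm_lt ht) (inv_ne_zero ht0)
  have h2 := HasDerivAt.comp t h1 (hasDerivAt_inv ht0)
  have ht1 : t - 1 ≠ 0 := by
    intro h
    have h3 : t = 1 := by linear_combination h
    have h4 : (1 : ℝ) < ‖t‖ := ht
    rw [h3, norm_one] at h4
    exact lt_irrefl _ h4
  have h3 : (if a then (1 - t⁻¹)⁻¹ else t⁻¹⁻¹) * ev ℂ w t⁻¹ * (-(t ^ 2)⁻¹) = om a t * F w t := by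
    cases a with
    | false =>
      simp only [Bool.false_eq_true, if_false, om, F]
      field_simp
    | true =>
      simp only [if_true, om, F]
      have h4 : (1 - t⁻¹)⁻¹ = t * (t - 1)⁻¹ := by
        have h5 : 1 - t⁻¹ = (t - 1) * t⁻¹ := by field_simp
        rw [h5, mul_inv, inv_inv, mul_comm]
      rw [h4]
      field_simp
      ring
  rw [← h3]
  exact h2

lemma isOpen_Om : IsOpen Om := isOpen_lt continuous_const continuous_norm

lemma differentiable_F : ∀ (w : List Bool), DifferentiableOn ℂ (F w) Om := by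
  intro w t ht
  have h1 : DifferentiableAt ℂ (fun z => ev ℂ w z) t⁻¹ := (hasDerivAt_ev w (inv_norm_lt ht)).differentiableAt
  exact (DifferentiableAt.comp (g := fun z => ev ℂ w z) t h1
    (differentiableAt_inv (Om_ne ht))).differentiableWithinAt

theorem F_analytic (w : List Bool) {t : ℂ} (ht : t ∈ Om) : AnalyticAt ℂ (F w) t :=
  (differentiable_F w).analyticAt (isOpen_Om.mem_nhds ht)

lemma Om_pc : IsPreconnected Om := by
  have h1 : Om = Complex.exp '' {w : ℂ | 0 < w.re} := by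
    ext t
    constructor
    · intro ht
      refine ⟨Complex.log t, ?_, Complex.exp_log (Om_ne ht)⟩
      show 0 < (Complex.log t).re
      rw [Complex.log_re]
      exact Real.log_pos ht
    · rintro ⟨w, hw, rfl⟩
      show 1 < ‖Complex.exp w‖
      rw [Complex.norm_exp]
      exact Real.one_lt_exp_iff.2 hw
  rw [h1]
  exact (convex_halfSpace_re_gt 0).isPreconnected.image _ Complex.continuous_exp.continuousOn

end Pool.Agent.X142.PL
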