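import Mathlib
import Pool.Agent.X142.PL.Fun
import Pool.Agent.X142.AZ.Germ

/-!
# The derivation of rational functions
-/

set_option autoImplicit false

namespace Pool.Agent.X142.PL

open Filter Topology Polynomial
open Pool.Agent.X142.AZ (KK GG phi ph0 phi_algebraMap ph0_apply eventually_ne ph0_isUnit)

/-- polynomials to dual numbers -/
noncomputable def d0 : ℂ[X] →+* TrivSqZeroExt KK KK where
  toFun p := TrivSqZeroExt.inl (algebraMap ℂ[X] KK p) + TrivSqZeroExt.inr (algebraMap ℂ[X] KK (derivative p))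
  map_one' := by
    rw [derivative_one, map_one, map_zero, TrivSqZeroExt.inr_zero, add_zero, TrivSqZeroExt.inl_one]
  map_zero' := by
    rw [derivative_zero, map_zero, TrivSqZeroExt.inr_zero, add_zero, TrivSqZeroExt.inl_zero]
  map_add' p q := by
    rw [derivative_add, map_add, map_add, TrivSqZeroExt.inr_add, TrivSqZeroExt.inl_add]
    abel
  map_mul' p q := by
    refine TrivSqZeroExt.ext ?_ ?_
    · simp
    · simp only [TrivSqZeroExt.snd_add, TrivSqZeroExt.snd_inl, TrivSqZeroExt.snd_inr, TrivSqZeroExt.snd_mul,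
        TrivSqZeroExt.fst_add, TrivSqZeroExt.fst_inl, TrivSqZeroExt.fst_inr, derivative_mul, map_add, map_mul,
        smul_eq_mul, op_smul_eq_mul, zero_add, add_zero]
      ring

lemma d0_fst (p : ℂ[X]) : (d0 p).fst = algebraMap ℂ[X] KK p := by
  show (TrivSqZeroExt.inl (algebraMap ℂ[X] KK p) + TrivSqZeroExt.inr (algebraMap ℂ[X] KK (derivative p))).fst = _
  simp

lemma d0_snd (p : ℂ[X]) : (d0 p).snd = algebraMap ℂ[X] KK (derivative p) := by
  show (TrivSqZeroExt.inl (algebraMap ℂ[X] KK p) + TrivSqZeroExt.inr (algebraMap ℂ[X] KK (derivative p))).snd = _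
  rw [TrivSqZeroExt.snd_add, TrivSqZeroExt.snd_inl, TrivSqZeroExt.snd_inr, zero_add]

lemma aq_ne {q : ℂ[X]} (hq : q ≠ 0) : algebraMap ℂ[X] KK q ≠ 0 := by
  rw [Ne, FaithfulSMul.algebraMap_eq_zero_iff]
  exact hq

/-- rational functions to dual numbers -/
noncomputable def d1 : KK →+* TrivSqZeroExt KK KK :=
  IsLocalization.lift (M := nonZeroDivisors ℂ[X]) (g := d0) fun q => by
    rw [TrivSqZeroExt.isUnit_iff_isUnit_fst, d0_fst]
    exact (aq_ne (nonZeroDivisors.ne_zero q.2)).isUnit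

lemma d1_algebraMap (p : ℂ[X]) : d1 (algebraMap ℂ[X] KK p) = d0 p := IsLocalization.lift_eq _ _

lemma d1_fst (x : KK) : (d1 x).fst = x := by
  have h : ((TrivSqZeroExt.fstHom KK KK KK : TrivSqZeroExt KK KK →ₐ[KK] KK) : TrivSqZeroExt KK KK →+* KK).comp d1 =
      RingHom.id KK := by
    apply IsLocalization.ringHom_ext (nonZeroDivisors ℂ[X])
    apply RingHom.ext
    intro p
    show (d1 (algebraMap ℂ[X] KK p)).fst = algebraMap ℂ[X] KK p
    rw [d1_algebraMap, d0_fst]
  exact RingHom.congr_fun h x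

/-- the derivation -/
noncomputable def del : KK →+ KK where
  toFun x := (d1 x).snd
  map_zero' := by rw [map_zero, TrivSqZeroExt.snd_zero]
  map_add' x y := by rw [map_add, TrivSqZeroExt.snd_add]

lemma del_mul (x y : KK) : del (x * y) = x * del y + del x * y := by
  show (d1 (x * y)).snd = x * (d1 y).snd + (d1 x).snd * y
  rw [map_mul, TrivSqZeroExt.snd_mul, d1_fst, d1_fst, smul_eq_mul, op_smul_eq_mul]

lemma del_algebraMap (p : ℂ[X]) : del (algebraMap ℂ[X] KK p) = algebraMap ℂ[X] KK (derivative p) := by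
  show (d1 (algebraMap ℂ[X] KK p)).snd = _
  rw [d1_algebraMap, d0_snd]

lemma del_one : del 1 = 0 := by
  rw [← map_one (algebraMap ℂ[X] KK), del_algebraMap, derivative_one, map_zero]

lemma del_frac {c : KK} {p q : ℂ[X]} (h : c * algebraMap ℂ[X] KK q = algebraMap ℂ[X] KK p) :
    del c * algebraMap ℂ[X] KK (q ^ 2) = algebraMap ℂ[X] KK (derivative p * q - p * derivative q) := by
  have h1 := congrArg del h
  rw [del_mul, del_algebraMap, del_algebraMap] at h1
  rw [map_sub, map_mul, map_mul, map_pow, ← h, ← h1]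
  ring

lemma phi_frac {c : KK} {p q : ℂ[X]} (hq : q ≠ 0) (h : c * algebraMap ℂ[X] KK q = algebraMap ℂ[X] KK p) :
    phi c = ((fun t : ℝ => p.eval (t : ℂ) / q.eval (t : ℂ) : ℝ → ℂ) : GG) := by
  have hu : IsUnit (ph0 q) := ph0_isUnit ⟨q, mem_nonZeroDivisors_of_ne_zero hq⟩
  refine hu.mul_right_cancel ?_
  have h1 := congrArg phi h
  rw [map_mul, phi_algebraMap, phi_algebraMap] at h1
  rw [h1, ph0_apply, ph0_apply, ← Germ.coe_mul]
  refine Germ.coe_eq.2 ?_
  filter_upwards [eventually_ne hq] with t ht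
  show p.eval (t : ℂ) = p.eval (t : ℂ) / q.eval (t : ℂ) * q.eval (t : ℂ)
  rw [div_mul_cancel₀ _ ht]

/-- rational functions are differentiable with derivative `del` -/
lemma phi_del (c : KK) : ∃ r r' : ℝ → ℂ, phi c = (r : GG) ∧ phi (del c) = (r' : GG) ∧
    ∀ᶠ t : ℝ in atTop, HasDerivAt r (r' t) t := by
  obtain ⟨p, q, hq, rfl⟩ := IsFractionRing.div_surjective (A := ℂ[X]) c
  have hq0 : q ≠ 0 := nonZeroDivisors.ne_zero hq
  have hpq : (algebraMap ℂ[X] KK p / algebraMap ℂ[X] KK q) * algebraMap ℂ[X] KK q = algebraMap ℂ[X] KK p :=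
    div_mul_cancel₀ _ (aq_ne hq0)
  refine ⟨fun t => p.eval (t : ℂ) / q.eval (t : ℂ), fun t => (derivative p * q - p * derivative q).eval (t : ℂ) /
    (q ^ 2).eval (t : ℂ), phi_frac hq0 hpq, phi_frac (pow_ne_zero 2 hq0) (del_frac hpq), ?_⟩
  filter_upwards [eventually_ne hq0] with t ht
  have h1 := (p.hasDerivAt (t : ℂ)).comp_ofReal
  have h2 := (q.hasDerivAt (t : ℂ)).comp_ofReal
  have h3 := h1.div h2 ht
  rw [eval_sub, eval_mul, eval_mul, eval_pow]
  exact h3

lemma exists_red (c : KK) : ∃ p q : ℂ[X], q ≠ 0 ∧ IsCoprime p q ∧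
    c * algebraMap ℂ[X] KK q = algebraMap ℂ[X] KK p := by
  obtain ⟨p, q, hpq, hc⟩ := IsFractionRing.exists_reduced_fraction (A := ℂ[X]) c
  refine ⟨p, q, nonZeroDivisors.ne_zero q.2, hpq.isCoprime, ?_⟩
  rw [← hc]
  exact IsLocalization.mk'_spec KK p q

/-- constants -/
lemma del_const {c : KK} (h : del c = 0) : ∃ r : ℂ, c = algebraMap ℂ[X] KK (C r) := by
  obtain ⟨p, q, hq, hpq, hc⟩ := exists_red c
  have h1 := del_frac hc
  rw [h, zero_mul] at h1
  have h2 : derivative p * q - p * derivative q = 0 :=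
    IsFractionRing.injective ℂ[X] KK (by rw [map_zero]; exact h1.symm)
  have h3 : q ∣ p * derivative q := ⟨derivative p, by linear_combination -h2⟩
  have h4 : q ∣ derivative q := hpq.symm.dvd_of_dvd_mul_left h3
  have h5 : derivative q = 0 := by
    by_contra h6
    have h7 := degree_le_of_dvd h4 h6
    exact absurd (degree_derivative_lt hq) (not_lt.2 h7)
  have h6 : derivative p = 0 := by
    rw [h5, mul_zero, sub_zero] at h2
    exact (mul_eq_zero.1 h2).resolve_right hq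
  obtain ⟨a, ha⟩ : ∃ a, q = C a := ⟨_, eq_C_of_derivative_eq_zero h5⟩
  obtain ⟨b, hb⟩ : ∃ b, p = C b := ⟨_, eq_C_of_derivative_eq_zero h6⟩
  have ha0 : a ≠ 0 := by
    rintro rfl
    exact hq (by rw [ha, C_0])
  refine ⟨b / a, ?_⟩
  rw [ha, hb] at hc
  have h7 : algebraMap ℂ[X] KK (C a) ≠ 0 := aq_ne (by rwa [Ne, C_eq_zero])
  refine mul_right_cancel₀ h7 ?_
  rw [hc, ← map_mul, ← C_mul, div_mul_cancel₀ _ ha0]

/-- no simple poles in derivatives -/
lemma no_pole {p q s g : ℂ[X]} (hq : q ≠ 0) (hpq : IsCoprime p q) (α : ℂ) (hs : s.eval α ≠ 0)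
    (h : (derivative p * q - p * derivative q) * ((X - C α) * s) = q ^ 2 * g) : g.eval α = 0 := by
  obtain ⟨q₁, hq₁, hdvd⟩ := exists_eq_pow_rootMultiplicity_mul_and_not_dvd q hq α
  rw [dvd_iff_isRoot, IsRoot.def] at hdvd
  rcases Nat.eq_zero_or_pos (rootMultiplicity α q) with hm | hm
  · rw [hm, pow_zero, one_mul] at hq₁
    have h1 := congrArg (eval α) h
    simp only [eval_mul, eval_sub, eval_X, eval_C, sub_self, zero_mul, mul_zero, eval_pow] at h1
    rcases mul_eq_zero.1 h1.symm with h2 | h2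
    · rw [hq₁] at h2
      exact absurd (pow_eq_zero_iff (two_ne_zero) |>.1 h2) hdvd
    · exact h2
  · exfalso
    obtain ⟨k, hk⟩ : ∃ k, rootMultiplicity α q = k + 1 := ⟨_, (Nat.succ_pred_eq_of_pos hm).symm⟩
    rw [hk] at hq₁
    have hqα : q.eval α = 0 := by
      rw [hq₁, eval_mul, eval_pow, eval_sub, eval_X, eval_C, sub_self, zero_pow (Nat.succ_ne_zero k), zero_mul]
    have hpα : p.eval α ≠ 0 := by
      intro hp
      obtain ⟨u, v, huv⟩ := hpq
      have := congrArg (eval α) huv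
      rw [eval_add, eval_mul, eval_mul, hp, hqα, mul_zero, mul_zero, add_zero, eval_one] at this
      exact zero_ne_one this
    have hd : derivative q = C ((k : ℂ) + 1) * (X - C α) ^ k * q₁ + (X - C α) ^ (k + 1) * derivative q₁ := by
      rw [hq₁, derivative_mul, derivative_X_sub_C_pow]
      push_cast
      simp
    have hne : (X - C α : ℂ[X]) ^ (k + 1) ≠ 0 := pow_ne_zero _ (X_sub_C_ne_zero α)
    have h2 : (X - C α) ^ (k + 1) * ((derivative p * (X - C α) * q₁ - C ((k : ℂ) + 1) * p * q₁ -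
        (X - C α) * p * derivative q₁) * s) = (X - C α) ^ (k + 1) * ((X - C α) ^ (k + 1) * q₁ ^ 2 * g) := by
      have h3 := h
      rw [hd] at h3
      have h4 : q ^ 2 * g = (X - C α) ^ (k + 1) * ((X - C α) ^ (k + 1) * q₁ ^ 2 * g) := by
        conv_lhs => rw [hq₁]
        ring
      rw [← h4, ← h3]
      conv_rhs => rw [hq₁]
      ring
    have h3 := mul_left_cancel₀ hne h2
    have h4 := congrArg (eval α) h3
    simp only [eval_mul, eval_sub, eval_X, eval_C, sub_self, zero_mul, mul_zero, eval_pow, zero_sub, sub_zero,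
      zero_pow (Nat.succ_ne_zero k)] at h4
    have h5 : ((k : ℂ) + 1) ≠ 0 := by exact_mod_cast Nat.succ_ne_zero k
    have h6 : -(((k : ℂ) + 1) * p.eval α * q₁.eval α) * s.eval α ≠ 0 :=
      mul_ne_zero (neg_ne_zero.2 (mul_ne_zero (mul_ne_zero h5 hpα) hdvd)) hs
    exact h6 h4

/-- the factors as rational functions -/
noncomputable def oK : Bool → KK
  | false => -(algebraMap ℂ[X] KK X)⁻¹
  | true => (algebraMap ℂ[X] KK X)⁻¹ - (algebraMap ℂ[X] KK (X - 1))⁻¹

lemma X1_ne : (X - 1 : ℂ[X]) ≠ 0 := by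
  have := X_sub_C_ne_zero (1 : ℂ)
  rwa [C_1] at this

lemma no_log {c a b : KK} (ha : del a = 0) (hb : del b = 0) (h : del c = a * oK false + b * oK true) :
    a = 0 ∧ b = 0 := by
  obtain ⟨r0, rfl⟩ := del_const ha
  obtain ⟨r1, rfl⟩ := del_const hb
  obtain ⟨p, q, hq, hpq, hc⟩ := exists_red c
  have h1 := del_frac hc
  have hX : algebraMap ℂ[X] KK X ≠ 0 := aq_ne X_ne_zero
  have hX1 : algebraMap ℂ[X] KK (X - 1) ≠ 0 := aq_ne X1_ne
  have h2 : (derivative p * q - p * derivative q) * (X * (X - 1)) = q ^ 2 * (-C r0 * (X - 1) - C r1) := by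
    apply IsFractionRing.injective ℂ[X] KK
    rw [map_mul (algebraMap ℂ[X] KK), ← h1, h, oK, oK]
    have h3 : (algebraMap ℂ[X] KK (C r0) * -(algebraMap ℂ[X] KK X)⁻¹ + algebraMap ℂ[X] KK (C r1) *
        ((algebraMap ℂ[X] KK X)⁻¹ - (algebraMap ℂ[X] KK (X - 1))⁻¹)) * (algebraMap ℂ[X] KK X *
          algebraMap ℂ[X] KK (X - 1)) = -algebraMap ℂ[X] KK (C r0) * algebraMap ℂ[X] KK (X - 1) +
          algebraMap ℂ[X] KK (C r1) * (algebraMap ℂ[X] KK (X - 1) - algebraMap ℂ[X] KK X) := by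
      field_simp
    have h4 : algebraMap ℂ[X] KK (X - 1) - algebraMap ℂ[X] KK X = -1 := by
      rw [map_sub, map_one]
      ring
    rw [h4] at h3
    rw [map_mul (algebraMap ℂ[X] KK) X, mul_assoc, mul_comm (algebraMap ℂ[X] KK (q ^ 2)), ← mul_assoc, h3,
      map_mul (algebraMap ℂ[X] KK) (q ^ 2), map_sub (algebraMap ℂ[X] KK) (-C r0 * (X - 1)), map_mul (algebraMap ℂ[X] KK) (-C r0),
      map_neg]
    ring
  have h3 := no_pole (s := X) hq hpq 1 (by rw [eval_X]; exact one_ne_zero) (by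
    rw [C_1, ← h2]
    ring)
  have h4 := no_pole (s := X - 1) hq hpq 0 (by simp) (by
    rw [C_0, ← h2]
    ring)
  simp only [eval_sub, eval_mul, eval_neg, eval_C, eval_X, eval_one, sub_self, mul_zero, zero_sub] at h3 h4
  have h5 : r1 = 0 := neg_eq_zero.1 h3
  have h6 : r0 = 0 := by
    rw [h5] at h4
    linear_combination h4
  rw [h5, h6, C_0, map_zero]
  exact ⟨rfl, rfl⟩

end Pool.Agent.X142.PL
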