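import Mathlib
import Pool.Agent.X142.PL.Der

/-!
# Linear independence of polylogarithms over `ℂ(z)`
-/

set_option autoImplicit false

namespace Pool.Agent.X142.PL

open Filter Topology
open Pool.Agent.X142.AZ (KK GG phi phi_algebraMap ph0_apply eventually_ne)

/-- the germ of `F w` -/
noncomputable def Fg (w : List Bool) : GG := ((fun t : ℝ => F w (t : ℂ) : ℝ → ℂ) : GG)

lemma Fg_nil : Fg [] = 1 := by
  refine Germ.coe_eq.2 (Eventually.of_forall fun t => ?_)
  exact F_nil _

lemma mem_Om_of {t : ℝ} (ht : 1 < t) : (t : ℂ) ∈ Om := by
  show 1 < ‖(t : ℂ)‖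
  rw [Complex.norm_real, Real.norm_eq_abs, abs_of_pos (by linarith)]
  exact ht

lemma phi_oK (a : Bool) : phi (oK a) = ((fun t : ℝ => om a (t : ℂ) : ℝ → ℂ) : GG) := by
  have hX : phi ((algebraMap (Polynomial ℂ) KK Polynomial.X)⁻¹) = ((fun t : ℝ => (t : ℂ)⁻¹ : ℝ → ℂ) : GG) := by
    have h := phi_frac (c := (algebraMap (Polynomial ℂ) KK Polynomial.X)⁻¹) (p := 1) (q := Polynomial.X)
      Polynomial.X_ne_zero (by rw [inv_mul_cancel₀ (aq_ne Polynomial.X_ne_zero), map_one])
    rw [h]
    refine Germ.coe_eq.2 (Eventually.of_forall fun t => ?_)
    simp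
  have hX1 : phi ((algebraMap (Polynomial ℂ) KK (Polynomial.X - 1))⁻¹) =
      ((fun t : ℝ => ((t : ℂ) - 1)⁻¹ : ℝ → ℂ) : GG) := by
    have h := phi_frac (c := (algebraMap (Polynomial ℂ) KK (Polynomial.X - 1))⁻¹) (p := 1)
      (q := Polynomial.X - 1) X1_ne (by rw [inv_mul_cancel₀ (aq_ne X1_ne), map_one])
    rw [h]
    refine Germ.coe_eq.2 (Eventually.of_forall fun t => ?_)
    simp
  cases a with
  | false =>
    rw [oK, map_neg, hX]
    rfl
  | true =>
    rw [oK, map_sub, hX, hX1]
    rfl

/-- evaluation of formal combinations of words -/
noncomputable def E : (List Bool →₀ KK) →+ GG :=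
  Finsupp.liftAddHom fun w => (AddMonoidHom.mulRight (Fg w)).comp phi.toAddMonoidHom

lemma E_single (w : List Bool) (c : KK) : E (Finsupp.single w c) = phi c * Fg w := by
  unfold E
  rw [Finsupp.liftAddHom_apply_single]
  rfl

lemma E_smul (c : KK) (x : List Bool →₀ KK) : E (c • x) = phi c * E x := by
  induction x using Finsupp.induction_linear with
  | zero => simp
  | add x y hx hy => rw [smul_add, map_add, hx, hy, map_add, mul_add]
  | single w d => rw [Finsupp.smul_single, E_single, E_single, smul_eq_mul, map_mul, mul_assoc]

lemma E_sum (x : List Bool →₀ KK) : E x = ∑ w ∈ x.support, phi (x w) * Fg w := by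
  conv_lhs => rw [← Finsupp.sum_single x]
  rw [Finsupp.sum, map_sum]
  exact Finset.sum_congr rfl fun w _ => E_single w _

/-- the lower term in the derivative -/
noncomputable def tl : List Bool → KK →+ (List Bool →₀ KK)
  | [] => 0
  | a :: w => (Finsupp.singleAddHom w).comp (AddMonoidHom.mulRight (oK a))

/-- the derivative of formal combinations -/
noncomputable def DW : (List Bool →₀ KK) →+ (List Bool →₀ KK) :=
  Finsupp.liftAddHom fun w => (Finsupp.singleAddHom w).comp del + tl w

lemma DW_single (w : List Bool) (c : KK) : DW (Finsupp.single w c) = Finsupp.single w (del c) + tl w c := by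
  unfold DW
  rw [Finsupp.liftAddHom_apply_single]
  rfl

lemma tl_cons (a : Bool) (w : List Bool) (c : KK) : tl (a :: w) c = Finsupp.single w (c * oK a) := rfl

lemma DW_apply (x : List Bool →₀ KK) (v : List Bool) :
    DW x v = del (x v) + (x (false :: v) * oK false + x (true :: v) * oK true) := by
  induction x using Finsupp.induction_linear with
  | zero => simp
  | add x y hx hy =>
    rw [map_add, Finsupp.add_apply, hx, hy, Finsupp.add_apply, Finsupp.add_apply, Finsupp.add_apply, map_add]
    ring
  | single w c =>
    rw [DW_single, Finsupp.add_apply]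
    congr 1
    · rw [Finsupp.single_apply, Finsupp.single_apply]
      split_ifs
      · rfl
      · rw [map_zero]
    · cases w with
      | nil =>
        rw [Finsupp.single_apply, Finsupp.single_apply, if_neg (List.cons_ne_nil _ _).symm,
          if_neg (List.cons_ne_nil _ _).symm, zero_mul, zero_mul, add_zero]
        rfl
      | cons a w =>
        rw [tl_cons, Finsupp.single_apply, Finsupp.single_apply, Finsupp.single_apply]
        by_cases h : w = v
        · subst h
          cases a <;> simp
        · rw [if_neg h, if_neg fun h' => h (List.cons.inj h').2, if_neg fun h' => h (List.cons.inj h').2,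
            zero_mul, zero_mul, add_zero]

/-- compatibility with differentiation -/
def Good (x : List Bool →₀ KK) : Prop := ∃ e e' : ℝ → ℂ, E x = (e : GG) ∧ E (DW x) = (e' : GG) ∧
  ∀ᶠ t : ℝ in atTop, HasDerivAt e (e' t) t

lemma Good_zero : Good 0 :=
  ⟨0, 0, map_zero _, by rw [map_zero, map_zero]; rfl, Eventually.of_forall fun t => hasDerivAt_const t 0⟩

lemma Good_add {x y : List Bool →₀ KK} (hx : Good x) (hy : Good y) : Good (x + y) := by
  obtain ⟨e, e', h1, h2, h3⟩ := hx
  obtain ⟨f, f', g1, g2, g3⟩ := hy
  refine ⟨e + f, e' + f', by rw [map_add, h1, g1]; rfl, by rw [map_add, map_add, h2, g2]; rfl, ?_⟩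
  filter_upwards [h3, g3] with t h4 g4
  exact h4.add g4

lemma hasDerivAt_Fr {a : Bool} {w : List Bool} (h : a = false → w ≠ []) {t : ℝ} (ht : 1 < t) :
    HasDerivAt (fun t : ℝ => F (a :: w) (t : ℂ)) (om a (t : ℂ) * F w (t : ℂ)) t :=
  (hasDerivAt_F h (mem_Om_of ht)).comp_ofReal

lemma Good_single {w : List Bool} (hw : adm w) (c : KK) : Good (Finsupp.single w c) := by
  obtain ⟨r, r', h1, h2, h3⟩ := phi_del c
  cases w with
  | nil =>
    refine ⟨r, r', ?_, ?_, h3⟩
    · rw [E_single, Fg_nil, mul_one, h1]
    · rw [DW_single, tl, AddMonoidHom.zero_apply, add_zero, E_single, Fg_nil, mul_one, h2]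
  | cons a w =>
    refine ⟨fun t => r t * F (a :: w) (t : ℂ), fun t => r' t * F (a :: w) (t : ℂ) +
      r t * (om a (t : ℂ) * F w (t : ℂ)), ?_, ?_, ?_⟩
    · rw [E_single, h1]
      rfl
    · rw [DW_single, tl_cons, map_add, E_single, E_single, h2, map_mul, h1, phi_oK]
      refine Germ.coe_eq.2 (Eventually.of_forall fun t => ?_)
      show r' t * F (a :: w) (t : ℂ) + r t * om a (t : ℂ) * F w (t : ℂ) = _
      rw [mul_assoc]
    · filter_upwards [h3, eventually_gt_atTop 1] with t h4 ht
      exact h4.mul (hasDerivAt_Fr (adm_first hw) ht)

lemma Good_of_adm (x : List Bool →₀ KK) (hx : ∀ w ∈ x.support, adm w) : Good x := by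
  have h1 : x = ∑ w ∈ x.support, Finsupp.single w (x w) := (Finsupp.sum_single x).symm
  rw [h1]
  have key : ∀ s : Finset (List Bool), (∀ w ∈ s, adm w) → Good (∑ w ∈ s, Finsupp.single w (x w)) := by
    intro s
    classical
    induction s using Finset.induction_on with
    | empty => intro _; rw [Finset.sum_empty]; exact Good_zero
    | insert a s ha ih =>
      intro hs
      rw [Finset.sum_insert ha]
      exact Good_add (Good_single (hs a (Finset.mem_insert_self a s)) _)
        (ih fun w hw => hs w (Finset.mem_insert_of_mem hw))
  exact key _ hx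

lemma E_DW {x : List Bool →₀ KK} (hx : ∀ w ∈ x.support, adm w) (h : E x = 0) : E (DW x) = 0 := by
  obtain ⟨e, e', h1, h2, h3⟩ := Good_of_adm x hx
  rw [h2]
  rw [h1] at h
  have h4 : ∀ᶠ t : ℝ in atTop, e t = 0 := Germ.coe_eq.1 h
  obtain ⟨R, hR⟩ := eventually_atTop.1 h4
  refine Germ.coe_eq.2 ?_
  filter_upwards [h3, eventually_gt_atTop R] with t h5 ht
  have h6 : e =ᶠ[𝓝 t] fun _ => 0 := by
    filter_upwards [lt_mem_nhds ht] with s hs
    exact hR s hs.le
  have h7 : HasDerivAt e 0 t := (hasDerivAt_const t (0 : ℂ)).congr_of_eventuallyEq h6
  exact h5.unique h7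

lemma DW_adm {x : List Bool →₀ KK} (hx : ∀ w ∈ x.support, adm w) : ∀ w ∈ (DW x).support, adm w := by
  intro w hw
  rw [Finsupp.mem_support_iff, DW_apply] at hw
  by_contra h
  have h0 : x w = 0 := by
    by_contra h1
    exact h (hx w (Finsupp.mem_support_iff.2 h1))
  have h2 : ∀ a, x (a :: w) = 0 := by
    intro a
    by_contra h1
    exact h (adm_tail (hx (a :: w) (Finsupp.mem_support_iff.2 h1)))
  apply hw
  rw [h0, h2, h2, map_zero, zero_mul, zero_mul, add_zero, add_zero]

/-- linear independence over `ℂ(z)` -/
theorem lin_indep : ∀ (n : ℕ) (x : List Bool →₀ KK), (∀ w ∈ x.support, adm w) →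
    (∀ w ∈ x.support, w.length < n) → E x = 0 → x = 0 := by
  classical
  intro n
  induction n with
  | zero =>
    intro x _ hx _
    rw [← Finsupp.support_eq_empty, Finset.eq_empty_iff_forall_notMem]
    intro w hw
    exact absurd (hx w hw) (Nat.not_lt_zero _)
  | succ n IH =>
    have key : ∀ (m : ℕ) (x : List Bool →₀ KK), (∀ w ∈ x.support, adm w) →
        (∀ w ∈ x.support, w.length < n + 1) →
        (x.support.filter fun w => w.length = n).card ≤ m → E x = 0 → x = 0 := by
      intro m
      induction m with
      | zero =>
        intro x ha hx hc hE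
        refine IH x ha (fun w hw => ?_) hE
        have h1 := hx w hw
        have h2 : w.length ≠ n := by
          intro h
          have h3 := Finset.card_eq_zero.1 (Nat.le_zero.1 hc)
          have h4 : w ∈ x.support.filter fun w => w.length = n := Finset.mem_filter.2 ⟨hw, h⟩
          rw [h3] at h4
          exact absurd h4 (Finset.notMem_empty _)
        omega
      | succ m ih =>
        intro x ha hx hc hE
        by_cases hemp : (x.support.filter fun w => w.length = n) = ∅
        · refine ih x ha hx ?_ hE
          rw [hemp]
          simp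
        obtain ⟨w0, hw0⟩ := Finset.nonempty_iff_ne_empty.2 hemp
        rw [Finset.mem_filter] at hw0
        have hc0 : x w0 ≠ 0 := Finsupp.mem_support_iff.1 hw0.1
        exfalso
        set x' : List Bool →₀ KK := (x w0)⁻¹ • x with hx'
        have hsupp : x'.support = x.support := by
          ext w
          rw [Finsupp.mem_support_iff, Finsupp.mem_support_iff, hx', Finsupp.smul_apply, smul_eq_mul]
          constructor
          · exact fun h h2 => h (by rw [h2, mul_zero])
          · exact fun h => mul_ne_zero (inv_ne_zero hc0) h
        have hE' : E x' = 0 := by rw [hx', E_smul, hE, mul_zero]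
        have h1w0 : x' w0 = 1 := by
          rw [hx', Finsupp.smul_apply, smul_eq_mul, inv_mul_cancel₀ hc0]
        have hadm : ∀ w ∈ x'.support, adm w := by
          rw [hsupp]
          exact ha
        have hlen : ∀ w ∈ x'.support, w.length < n + 1 := by
          rw [hsupp]
          exact hx
        have hlong : ∀ w : List Bool, n < w.length → x' w = 0 := by
          intro w hw
          by_contra h
          have := hlen w (Finsupp.mem_support_iff.2 h)
          omega
        have htop : ∀ v : List Bool, n ≤ v.length → DW x' v = del (x' v) := by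
          intro v hv
          rw [DW_apply, hlong (false :: v) (by rw [List.length_cons]; omega),
            hlong (true :: v) (by rw [List.length_cons]; omega)]
          ring
        have hy : DW x' = 0 := by
          refine ih _ (DW_adm hadm) ?_ ?_ (E_DW hadm hE')
          · intro w hw
            by_contra h2
            rw [Finsupp.mem_support_iff, htop w (by omega), hlong w (by omega), map_zero] at hw
            exact hw rfl
          · have h2 : ((DW x').support.filter fun w => w.length = n) ⊆
                (x.support.filter fun w => w.length = n).erase w0 := by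
              intro w hw
              rw [Finset.mem_filter, Finsupp.mem_support_iff] at hw
              rw [htop w hw.2.ge] at hw
              rw [Finset.mem_erase, Finset.mem_filter]
              refine ⟨?_, ?_, hw.2⟩
              · rintro rfl
                rw [h1w0, del_one] at hw
                exact hw.1 rfl
              · rw [← hsupp, Finsupp.mem_support_iff]
                intro h3
                rw [h3, map_zero] at hw
                exact hw.1 rfl
            refine (Finset.card_le_card h2).trans ?_
            rw [Finset.card_erase_of_mem (Finset.mem_filter.2 hw0)]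
            omega
        have hdel : ∀ v : List Bool, n ≤ v.length → del (x' v) = 0 := fun v hv => by
          rw [← htop v hv, hy]
          rfl
        cases w0 with
        | nil =>
          have hn : n = 0 := by
            have := hw0.2
            simpa using this.symm
          subst hn
          have h2 : x' = Finsupp.single [] 1 := by
            ext v
            rw [Finsupp.single_apply]
            by_cases h3 : [] = v
            · rw [if_pos h3, ← h3, h1w0]
            · rw [if_neg h3]
              exact hlong v (List.length_pos_iff.2 (Ne.symm h3))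
          rw [h2, E_single, Fg_nil, map_one, mul_one] at hE'
          exact one_ne_zero hE'
        | cons a0 v =>
          have hv : v.length + 1 = n := by
            have := hw0.2
            rwa [List.length_cons] at this
          have h2 := DW_apply x' v
          rw [hy, Finsupp.zero_apply] at h2
          have h3 : del (-x' v) = x' (false :: v) * oK false + x' (true :: v) * oK true := by
            rw [map_neg]
            linear_combination h2
          obtain ⟨h4, h5⟩ := no_log (hdel _ (by rw [List.length_cons]; omega))
            (hdel _ (by rw [List.length_cons]; omega)) h3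
          cases a0 with
          | false =>
            rw [h1w0] at h4
            exact one_ne_zero h4
          | true =>
            rw [h1w0] at h5
            exact one_ne_zero h5
    intro x ha hx hE
    exact key _ x ha hx le_rfl hE

/-- linear independence over `ℂ(z)` -/
theorem E_inj (x : List Bool →₀ KK) (hadm : ∀ w ∈ x.support, adm w) (h : E x = 0) : x = 0 := by
  classical
  refine lin_indep (x.support.sup List.length + 1) x hadm (fun w hw => ?_) h
  exact Nat.lt_succ_of_le (Finset.le_sup (f := List.length) hw)

end Pool.Agent.X142.PL
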