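import Mathlib
import Pool.Agent.X142.PL.Lin
import Pool.Agent.X142.PL.Reg

/-!
# Algebraic independence of multiple polylogarithms
-/

set_option autoImplicit false

namespace Pool.Agent.X142.PL

open Filter Topology MvPolynomial
open Pool.Agent.X142.AZ (KK GG phi)

/-! ### Derivations -/

section deriv

variable (φ : List Bool → ℚ)

/-- the derivation on words -/
noncomputable def Dg (w : List Bool) : GG := S (splits w) fun p => phi (φ p.1 : KK) * Fg p.2

/-- the derivation on formal combinations -/
noncomputable def DE : (List Bool →₀ KK) →+ GG :=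
  Finsupp.liftAddHom fun w => (AddMonoidHom.mulRight (Dg φ w)).comp phi.toAddMonoidHom

lemma DE_single (w : List Bool) (c : KK) : DE φ (Finsupp.single w c) = phi c * Dg φ w := by
  unfold DE
  rw [Finsupp.liftAddHom_apply_single]
  rfl

lemma Fg_mul {u v : List Bool} (hu : adm u) (hv : adm v) : Fg u * Fg v = S (qs u v) fun w => Fg w := by
  have h1 : (S (qs u v) fun w => Fg w) = ((fun t : ℝ => S (qs u v) fun w => F w (t : ℂ) : ℝ → ℂ) : GG) := by
    have h2 : ∀ l : List (List Bool), (S l fun w => Fg w) =
        ((fun t : ℝ => S l fun w => F w (t : ℂ) : ℝ → ℂ) : GG) := by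
      intro l
      induction l with
      | nil => rfl
      | cons w l ih =>
        rw [S_cons, ih]
        refine Germ.coe_eq.2 (Eventually.of_forall fun t => ?_)
        show F w (t : ℂ) + S l (fun w => F w (t : ℂ)) = S (w :: l) fun w => F w (t : ℂ)
        rw [S_cons]
    exact h2 _
  rw [h1]
  refine Germ.coe_eq.2 ?_
  filter_upwards [eventually_gt_atTop 1] with t ht
  exact F_mul hu hv (mem_Om_of ht)

lemma S_mul_left {R : Type} [CommRing R] {α : Type} (l : List α) (f : α → R) (c : R) :
    (S l fun x => c * f x) = c * S l f := (S_hom l f (AddMonoidHom.mulLeft c)).symm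

lemma S_mul_right {R : Type} [CommRing R] {α : Type} (l : List α) (f : α → R) (c : R) :
    (S l fun x => f x * c) = S l f * c := (S_hom l f (AddMonoidHom.mulRight c)).symm

lemma splits_fst_nil {M : Type} [AddCommMonoid M] (u : List Bool) (g : List Bool → M) :
    (S (splits u) fun p => if p.1 = [] then g p.2 else 0) = g u := by
  cases u with
  | nil => rw [splits_nil, S_single, if_pos rfl]
  | cons a u =>
    rw [splits_cons, S_cons, S_map, if_pos rfl]
    have h1 : (S (splits u) fun p : List Bool × List Bool => if a :: p.1 = [] then g p.2 else 0) =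
        S (splits u) fun _ => 0 := S_congr fun p _ => if_neg (List.cons_ne_nil _ _)
    rw [h1, S_zero, add_zero]

/-- Leibniz rule on words -/
lemma Dg_mul (h0 : φ [] = 0) (hm : ∀ u v, u ≠ [] → v ≠ [] → S (qs u v) φ = 0) {u v : List Bool}
    (hu : adm u) (hv : adm v) :
    (S (qs u v) fun w => Dg φ w) = Dg φ u * Fg v + Fg u * Dg φ v := by
  have h1 := coprod u v fun w w' => phi (φ w : KK) * Fg w'
  have h2 : (S (qs u v) fun w => Dg φ w) =
      S (qs u v) fun w => S (splits w) fun p => phi (φ p.1 : KK) * Fg p.2 := rfl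
  rw [h2, h1]
  have hφ : ∀ u v, (S (qs u v) φ) = (if u = [] then φ v else 0) + (if v = [] then φ u else 0) := by
    intro u v
    by_cases hu : u = []
    · subst hu
      rw [qs_nil_left, S_single, if_pos rfl, h0, ite_self, add_zero]
    · by_cases hv : v = []
      · subst hv
        rw [qs_nil_right, S_single, if_neg hu, if_pos rfl, zero_add]
      · rw [hm u v hu hv, if_neg hu, if_neg hv, add_zero]
  have h3 : ∀ p ∈ splits u, ∀ q ∈ splits v,
      (S (qs p.1 q.1) fun w => S (qs p.2 q.2) fun w' => phi (φ w : KK) * Fg w') =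
      (if p.1 = [] then (phi (φ q.1 : KK) * Fg q.2) * Fg p.2 else 0) +
      (if q.1 = [] then (phi (φ p.1 : KK) * Fg p.2) * Fg q.2 else 0) := by
    intro p hp' q hq'
    have h4 : (S (qs p.1 q.1) fun w => S (qs p.2 q.2) fun w' => phi (φ w : KK) * Fg w') =
        (S (qs p.1 q.1) fun w => phi (φ w : KK) * (Fg p.2 * Fg q.2)) := by
      refine S_congr fun w _ => ?_
      rw [S_mul_left, Fg_mul (adm_splits u hu p hp') (adm_splits v hv q hq')]
    have h5 : (S (qs p.1 q.1) fun w => phi (φ w : KK)) = phi ((S (qs p.1 q.1) φ : ℚ) : KK) := by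
      have h6 := S_hom (qs p.1 q.1) φ
        ((phi : KK →+ GG).comp ((algebraMap ℚ KK : ℚ →+* KK) : ℚ →+ KK))
      have h7 : ∀ r : ℚ, ((phi : KK →+ GG).comp ((algebraMap ℚ KK : ℚ →+* KK) : ℚ →+ KK)) r = phi (r : KK) := by
        intro r
        simp
      rw [h7] at h6
      rw [h6]
      refine S_congr fun w _ => ?_
      rw [h7]
    rw [h4, S_mul_right, h5, hφ]
    by_cases hp : p.1 = []
    · by_cases hq : q.1 = []
      · rw [if_pos hp, if_pos hq, if_pos hp, if_pos hq, hp, hq, h0]
        simp
      · rw [if_pos hp, if_neg hq, if_pos hp, if_neg hq, add_zero, add_zero]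
        ring
    · by_cases hq : q.1 = []
      · rw [if_neg hp, if_pos hq, if_neg hp, if_pos hq, zero_add, zero_add]
        ring
      · rw [if_neg hp, if_neg hq, if_neg hp, if_neg hq]
        simp
  have h4 : (S (splits u) fun p => S (splits v) fun q =>
      S (qs p.1 q.1) fun w => S (qs p.2 q.2) fun w' => phi (φ w : KK) * Fg w') =
      S (splits u) fun p => ((if p.1 = [] then Dg φ v * Fg p.2 else 0) + (phi (φ p.1 : KK) * Fg p.2) * Fg v) := by
    refine S_congr fun p hp' => ?_
    have h5 : (S (splits v) fun q => S (qs p.1 q.1) fun w => S (qs p.2 q.2) fun w' => phi (φ w : KK) * Fg w') =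
        S (splits v) fun q => ((if p.1 = [] then (phi (φ q.1 : KK) * Fg q.2) * Fg p.2 else 0) +
          (if q.1 = [] then (phi (φ p.1 : KK) * Fg p.2) * Fg q.2 else 0)) := S_congr fun q hq' => h3 p hp' q hq'
    rw [h5, S_add, splits_fst_nil v fun w => (phi (φ p.1 : KK) * Fg p.2) * Fg w]
    congr 1
    by_cases hp : p.1 = []
    · simp only [if_pos hp]
      rw [S_mul_right]
      rfl
    · simp only [if_neg hp]
      rw [S_zero]
  rw [h4, S_add, splits_fst_nil u fun w => Dg φ v * Fg w, S_mul_right]
  show Dg φ v * Fg u + Dg φ u * Fg v = _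
  ring

/-- multiplication by a word -/
noncomputable def mulW (v : List Bool) : (List Bool →₀ KK) →+ (List Bool →₀ KK) :=
  Finsupp.liftAddHom fun u =>
    { toFun := fun c => S (qs u v) fun w => Finsupp.single w c
      map_zero' := by
        simp only [Finsupp.single_zero]
        exact S_zero _
      map_add' := fun c d => by
        simp only [Finsupp.single_add]
        exact S_add _ _ _ }

lemma mulW_single (v u : List Bool) (c : KK) :
    mulW v (Finsupp.single u c) = S (qs u v) fun w => Finsupp.single w c := by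
  unfold mulW
  rw [Finsupp.liftAddHom_apply_single]
  rfl

lemma mulW_sum (v : List Bool) (x : List Bool →₀ KK) :
    mulW v x = ∑ u ∈ x.support, S (qs u v) fun w => Finsupp.single w (x u) := by
  conv_lhs => rw [← Finsupp.sum_single x]
  rw [Finsupp.sum, map_sum]
  exact Finset.sum_congr rfl fun u _ => mulW_single v u (x u)

lemma DE_sum (x : List Bool →₀ KK) : DE φ x = ∑ w ∈ x.support, phi (x w) * Dg φ w := by
  conv_lhs => rw [← Finsupp.sum_single x]
  rw [Finsupp.sum, map_sum]
  exact Finset.sum_congr rfl fun w _ => DE_single φ w (x w)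

lemma E_mulW {v : List Bool} (hv : adm v) {x : List Bool →₀ KK} (hx : ∀ w ∈ x.support, adm w) :
    E (mulW v x) = E x * Fg v := by
  rw [mulW_sum, E_sum x, map_sum, Finset.sum_mul]
  refine Finset.sum_congr rfl fun u hu => ?_
  rw [S_hom, mul_assoc, Fg_mul (hx u hu) hv, ← S_mul_left]
  exact S_congr fun w _ => E_single w (x u)

lemma DE_mulW (h0 : φ [] = 0) (hm : ∀ u v, u ≠ [] → v ≠ [] → S (qs u v) φ = 0) {v : List Bool}
    (hv : adm v) {x : List Bool →₀ KK} (hx : ∀ w ∈ x.support, adm w) :
    DE φ (mulW v x) = DE φ x * Fg v + E x * Dg φ v := by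
  rw [mulW_sum, DE_sum φ x, E_sum x, map_sum, Finset.sum_mul, Finset.sum_mul, ← Finset.sum_add_distrib]
  refine Finset.sum_congr rfl fun u hu => ?_
  rw [S_hom]
  have h1 : (S (qs u v) fun w => DE φ (Finsupp.single w (x u))) = phi (x u) * S (qs u v) fun w => Dg φ w := by
    rw [← S_mul_left]
    exact S_congr fun w _ => DE_single φ w (x u)
  rw [h1, Dg_mul φ h0 hm (hx u hu) hv]
  ring

lemma single_supp {w : List Bool} (hw : adm w) (c : KK) : ∀ w' ∈ (Finsupp.single w c).support, adm w' := by
  intro w' hw'
  have := Finsupp.support_single_subset hw'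
  rw [Finset.mem_singleton] at this
  rw [this]
  exact hw

lemma add_supp {x y : List Bool →₀ KK} (hx : ∀ w ∈ x.support, adm w) (hy : ∀ w ∈ y.support, adm w) :
    ∀ w ∈ (x + y).support, adm w := by
  classical
  intro w hw
  rcases Finset.mem_union.1 (Finsupp.support_add hw) with h | h
  · exact hx w h
  · exact hy w h

lemma S_supp {l : List (List Bool)} (hl : ∀ w ∈ l, adm w) (c : KK) :
    ∀ w ∈ (S l fun w => Finsupp.single w c : List Bool →₀ KK).support, adm w := by
  induction l with
  | nil =>
    intro w hw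
    rw [S_nil] at hw
    simp at hw
  | cons a l ih =>
    rw [S_cons]
    exact add_supp (single_supp (hl a (List.mem_cons_self ..)) c)
      (ih fun w hw => hl w (List.mem_cons_of_mem _ hw))

lemma mulW_supp {v : List Bool} (hv : adm v) {x : List Bool →₀ KK} (hx : ∀ w ∈ x.support, adm w) :
    ∀ w ∈ (mulW v x).support, adm w := by
  classical
  rw [mulW_sum]
  intro w hw
  rw [Finsupp.mem_support_iff, Finsupp.finsetSum_apply] at hw
  obtain ⟨u, hu, hu2⟩ := Finset.exists_ne_zero_of_sum_ne_zero hw
  exact S_supp (fun w hw => adm_qs u v (hx u hu) hv w hw) (x u) w (Finsupp.mem_support_iff.2 hu2)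

lemma Dg_top {N : ℕ} (hφ : ∀ u, wt u ≠ N → φ u = 0) {w : List Bool} (hw : wt w ≤ N) :
    Dg φ w = phi (φ w : KK) := by
  have h1 : Dg φ w = S (splits w) fun p => if p.2 = [] then phi (φ p.1 : KK) else 0 := by
    refine S_congr fun p hp => ?_
    by_cases h : p.2 = []
    · rw [if_pos h, h, Fg_nil, mul_one]
    · rw [if_neg h, hφ p.1, Rat.cast_zero, map_zero, zero_mul]
      have h2 := splits_wt w p hp
      have h3 := wt_pos h
      omega
  rw [h1, splits_snd_nil w fun u => phi (φ u : KK)]

end deriv

/-! ### Generators -/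

theorem exists_gens (n : ℕ) : ∃ (κ : Type) (_ : Fintype κ) (a : κ → List Bool) (φ : κ → List Bool → ℚ),
    (∀ j, wt (a j) = n) ∧ (∀ j, adm (a j)) ∧ (∀ j u, wt u ≠ n → φ j u = 0) ∧
    (∀ j u v, u ≠ [] → v ≠ [] → S (qs u v) (φ j) = 0) ∧ (∀ j, φ j (a j) = 1) ∧
    (∀ i j, i ≠ j → φ i (a j) = 0) ∧
    ∀ w, adm w → wt w = n → Finsupp.single w 1 ∈
      Submodule.span ℚ (Set.range fun j => (Finsupp.single (a j) 1 : V)) ⊔ Dec0 n := by
  classical
  set v : {w : List Bool // wt w = n ∧ adm w} → V ⧸ Dec n := fun w =>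
    Submodule.Quotient.mk (Finsupp.single (w : List Bool) 1) with hv
  obtain ⟨κ, a, ha, hspan, hli⟩ := exists_linearIndependent' ℚ v
  have hfin : Finite {w : List Bool // wt w = n ∧ adm w} :=
    ((finite_wt n).subset fun w hw => hw.1 : {w : List Bool | wt w = n ∧ adm w}.Finite).to_subtype
  have hfinκ : Finite κ := Finite.of_injective a ha
  obtain ⟨g, hg⟩ := LinearMap.exists_extend hli.repr
  have hg1 : ∀ j, g (v (a j)) = Finsupp.single j 1 := by
    intro j
    have h1 : v (a j) ∈ Submodule.span ℚ (Set.range (v ∘ a)) := Submodule.subset_span ⟨j, rfl⟩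
    have h2 := DFunLike.congr_fun hg ⟨v (a j), h1⟩
    have h3 := hli.repr_eq_single j ⟨v (a j), h1⟩ rfl
    rw [← h3, ← h2]
    rfl
  set Φ : V →ₗ[ℚ] (κ →₀ ℚ) := g.comp (Submodule.mkQ (Dec n)) with hΦ
  have hΦdec : ∀ x ∈ Dec n, Φ x = 0 := by
    intro x hx
    rw [hΦ, LinearMap.comp_apply, Submodule.mkQ_apply, (Submodule.Quotient.mk_eq_zero (Dec n)).2 hx, map_zero]
  refine ⟨κ, Fintype.ofFinite κ, fun j => (a j : List Bool),
    fun j u => if wt u = n then Φ (Finsupp.single u 1) j else 0, fun j => (a j).2.1,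
    fun j => (a j).2.2, fun j u hu => if_neg hu, ?_, ?_, ?_, ?_⟩
  · intro j u v' hu hv'
    by_cases hn : wt u + wt v' = n
    · have h1 : (S (qs u v') fun w => if wt w = n then Φ (Finsupp.single w 1) j else 0) =
          S (qs u v') fun w => Φ (Finsupp.single w 1) j := by
        refine S_congr fun w hw => ?_
        rw [if_pos ((wt_qs u v' w hw).trans hn)]
      rw [h1]
      have h2 := S_hom (qs u v') (fun w => (Finsupp.single w 1 : V))
        ((Finsupp.applyAddHom j).comp (Φ : V →+ (κ →₀ ℚ)))
      have h3 : (S (qs u v') fun w => Φ (Finsupp.single w 1) j) = Φ (pr u v') j := h2.symm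
      rw [h3, hΦdec _ (Submodule.subset_span ⟨u, v', hu, hv', hn, rfl⟩)]
      rfl
    · have h1 : (S (qs u v') fun w => if wt w = n then Φ (Finsupp.single w 1) j else 0) =
          S (qs u v') fun _ => 0 := by
        refine S_congr fun w hw => if_neg ?_
        rw [wt_qs u v' w hw]
        exact hn
      rw [h1, S_zero]
  · intro j
    have h1 : Φ (Finsupp.single (a j : List Bool) 1) = Finsupp.single j 1 := hg1 j
    simp only [(a j).2.1, if_true]
    rw [h1, Finsupp.single_eq_same]
  · intro i j hij
    have h1 : Φ (Finsupp.single (a j : List Bool) 1) = Finsupp.single j 1 := hg1 j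
    simp only [(a j).2.1, if_true]
    rw [h1, Finsupp.single_apply, if_neg (Ne.symm hij)]
  · intro w hadm hw
    have h1 : v ⟨w, hw, hadm⟩ ∈ Submodule.span ℚ (Set.range (v ∘ a)) := by
      rw [hspan]
      exact Submodule.subset_span ⟨_, rfl⟩
    have h2 : (Submodule.span ℚ (Set.range fun j => (Finsupp.single (a j : List Bool) 1 : V))).map
        (Submodule.mkQ (Dec n)) = Submodule.span ℚ (Set.range (v ∘ a)) := by
      rw [Submodule.map_span, ← Set.range_comp]
      rfl
    rw [← h2] at h1
    obtain ⟨y, hy, hyw⟩ := h1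
    have h3 : Finsupp.single w 1 - y ∈ Dec n := by
      rw [← Submodule.Quotient.mk_eq_zero, Submodule.Quotient.mk_sub, sub_eq_zero]
      exact hyw.symm
    have hds : ∀ w, adm w → dd (Finsupp.single w 1) = 0 := by
      intro w hw
      refine dd_of_adm fun w' hw' => ?_
      have := Finsupp.support_single_subset hw'
      rw [Finset.mem_singleton] at this
      rw [this]
      exact hw
    have hdy : dd y = 0 := by
      rw [SetLike.mem_coe] at hy
      clear hyw h3
      induction hy using Submodule.span_induction with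
      | mem x hx =>
        obtain ⟨j, rfl⟩ := hx
        exact hds _ (a j).2.2
      | zero => rw [map_zero]
      | add y z _ _ hy hz => rw [map_add, hy, hz, add_zero]
      | smul c y _ hy => rw [map_smul, hy, smul_zero]
    have h5 : Finsupp.single w 1 - y ∈ Dec0 n :=
      Dec_adm h3 (adm_of_dd (by rw [map_sub, hds w hadm, hdy, sub_zero]))
    have h4 : (Finsupp.single w 1 : V) = y + (Finsupp.single w 1 - y) := by abel
    rw [h4]
    exact Submodule.add_mem_sup hy h5

/-- the functions on the domain -/
noncomputable def Fo (w : List Bool) : Om → ℂ := fun t => F w t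

/-- a system of generators in weights at most `k` with dual functionals -/
theorem exists_family (k : ℕ) : ∃ (κ : Type) (_ : Fintype κ) (a : κ → List Bool) (φ : κ → List Bool → ℚ),
    (∀ j, adm (a j)) ∧ (∀ j u, wt u ≠ wt (a j) → φ j u = 0) ∧ (∀ j, φ j [] = 0) ∧
    (∀ j u v, u ≠ [] → v ≠ [] → S (qs u v) (φ j) = 0) ∧ (∀ j, φ j (a j) = 1) ∧
    (∀ i j, i ≠ j → φ i (a j) = 0) ∧
    ∀ w, adm w → wt w ≤ k → ∃ G : MvPolynomial κ ℚ, aeval (fun j => Fo (a j)) G = Fo w := by
  classical
  choose κ hfin a φ h1 h0 h2 h3 h4 h5 h6 using exists_gens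
  have hwt : ∀ x : Σ n : Fin k, κ ((n : ℕ) + 1), wt (a _ x.2) = (x.1 : ℕ) + 1 := fun x => h1 _ _
  refine ⟨Σ n : Fin k, κ ((n : ℕ) + 1), inferInstance, fun x => a _ x.2, fun x => φ _ x.2,
    fun x => h0 _ _, fun x u hu => h2 _ _ _ (by rw [hwt] at hu; exact hu),
    fun x => h2 _ _ _ (by rw [wt_nil]; exact (Nat.succ_ne_zero _).symm),
    fun x u v hu hv => h3 _ _ _ _ hu hv, fun x => h4 _ _, ?_, ?_⟩
  · rintro ⟨n, i⟩ ⟨m, j⟩ hij
    by_cases hnm : n = m
    · subst hnm
      exact h5 _ _ _ fun h => hij (by
        have h' : i = j := h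
        rw [h'])
    · refine h2 _ _ _ ?_
      rw [h1]
      intro h
      exact hnm (Fin.ext (by simpa using h.symm))
  · intro w
    induction hn : wt w using Nat.strong_induction_on generalizing w with
    | _ n ih =>
      intro hadm hk
      by_cases hw : w = []
      · refine ⟨1, ?_⟩
        rw [map_one, hw]
        funext t
        exact (F_nil _).symm
      have hpos := wt_pos hw
      obtain ⟨n', rfl⟩ : ∃ n', n = n' + 1 := ⟨n - 1, by omega⟩
      set R : Submodule ℚ (Om → ℂ) := Subalgebra.toSubmodule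
        (aeval (R := ℚ) fun x : Σ n : Fin k, κ ((n : ℕ) + 1) => Fo (a _ x.2)).range with hR
      have hle : Submodule.span ℚ (Set.range fun j => (Finsupp.single (a (n' + 1) j) 1 : V)) ⊔ Dec0 (n' + 1) ≤
          R.comap (Finsupp.linearCombination ℚ Fo) := by
        rw [sup_le_iff]
        constructor
        · rw [Submodule.span_le]
          rintro _ ⟨j, rfl⟩
          rw [SetLike.mem_coe, Submodule.mem_comap, Finsupp.linearCombination_single, one_smul, hR,
            Subalgebra.mem_toSubmodule]
          exact ⟨X ⟨⟨n', by omega⟩, j⟩, aeval_X _ _⟩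
        · rw [Dec0, Submodule.span_le]
          rintro _ ⟨u, v, hau, hav, hu, hv, huv, rfl⟩
          rw [SetLike.mem_coe, Submodule.mem_comap]
          have hpu := wt_pos hu
          have hpv := wt_pos hv
          obtain ⟨G, hG⟩ := ih (wt u) (by omega) u rfl hau (by omega)
          obtain ⟨G', hG'⟩ := ih (wt v) (by omega) v rfl hav (by omega)
          have h7 : Finsupp.linearCombination ℚ Fo (pr u v) = Fo u * Fo v := by
            have h8 := S_hom (qs u v) (fun w => (Finsupp.single w 1 : V))
              (Finsupp.linearCombination ℚ Fo : V →+ (Om → ℂ))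
            have h9 : Finsupp.linearCombination ℚ Fo (pr u v) = S (qs u v) fun w => Fo w := by
              refine h8.trans (S_congr fun w _ => ?_)
              show Finsupp.linearCombination ℚ Fo (Finsupp.single w 1) = Fo w
              rw [Finsupp.linearCombination_single, one_smul]
            rw [h9]
            funext z
            show _ = F u z * F v z
            rw [F_mul hau hav z.2]
            exact S_hom (qs u v) (fun w => Fo w) (Pi.evalAddMonoidHom (fun _ : Om => ℂ) z)
          rw [h7, hR, Subalgebra.mem_toSubmodule]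
          exact ⟨G * G', by rw [map_mul]; exact congrArg₂ (· * ·) hG hG'⟩
      have h7 := hle (h6 (n' + 1) w hadm hn)
      rw [Submodule.mem_comap, Finsupp.linearCombination_single, one_smul, hR,
        Subalgebra.mem_toSubmodule] at h7
      obtain ⟨G, hG⟩ := h7
      exact ⟨G, hG⟩

end Pool.Agent.X142.PL
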