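import Mathlib
import Pool.Agent.X142.PL.Alg
import Pool.Agent.Y771.RP.Rel

/-!
# Algebraic independence over `ℂ(z)` and local independence
-/

set_option autoImplicit false

namespace Pool.Agent.X142.PL

open Filter Topology MvPolynomial
open Pool.Agent.X142.AZ (KK GG phi evG Th evG_Th Th_inj)

section

variable {κ : Type} [Fintype κ] (a : κ → List Bool)

/-- evaluation at the generators -/
noncomputable def evW : MvPolynomial κ KK →+* GG := eval₂Hom phi fun j => Fg (a j)

lemma evW_repr [DecidableEq κ] (ha : ∀ j, adm (a j)) (φ : List Bool → ℚ) (h0 : φ [] = 0)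
    (hm : ∀ u v, u ≠ [] → v ≠ [] → S (qs u v) φ = 0) (R : MvPolynomial κ KK) :
    ∃ x : List Bool →₀ KK, (∀ w ∈ x.support, adm w) ∧ E x = evW a R ∧
      DE φ x = ∑ j, evW a (pderiv j R) * Dg φ (a j) := by
  induction R using MvPolynomial.induction_on with
  | C c =>
    refine ⟨Finsupp.single [] c, single_supp adm_nil c, ?_, ?_⟩
    · rw [E_single, Fg_nil, mul_one, evW, coe_eval₂Hom, eval₂_C]
    · rw [DE_single]
      have h1 : Dg φ [] = 0 := by
        rw [Dg, splits_nil, S_single, h0, Rat.cast_zero, map_zero, zero_mul]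
      rw [h1, mul_zero]
      symm
      refine Finset.sum_eq_zero fun j _ => ?_
      rw [pderiv_C, map_zero, zero_mul]
  | add p q hp hq =>
    obtain ⟨x, hx0, hx1, hx2⟩ := hp
    obtain ⟨y, hy0, hy1, hy2⟩ := hq
    refine ⟨x + y, add_supp hx0 hy0, by rw [map_add, hx1, hy1, map_add], ?_⟩
    rw [map_add, hx2, hy2, ← Finset.sum_add_distrib]
    refine Finset.sum_congr rfl fun j _ => ?_
    rw [map_add, map_add, add_mul]
  | mul_X p i hp =>
    obtain ⟨x, hx0, hx1, hx2⟩ := hp
    refine ⟨mulW (a i) x, mulW_supp (ha i) hx0, ?_, ?_⟩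
    · rw [E_mulW (ha i) hx0, hx1, map_mul]
      congr 1
      rw [evW, coe_eval₂Hom, eval₂_X]
    · rw [DE_mulW φ h0 hm (ha i) hx0, hx1, hx2, Finset.sum_mul]
      have h1 : ∀ j, evW a (pderiv j (p * X i)) * Dg φ (a j) =
          evW a (pderiv j p) * Dg φ (a j) * Fg (a i) + (if j = i then evW a p * Dg φ (a i) else 0) := by
        intro j
        rw [pderiv_mul, map_add, map_mul, map_mul]
        have h2 : evW a (X i) = Fg (a i) := by rw [evW, coe_eval₂Hom, eval₂_X]
        rw [h2]
        by_cases h : j = i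
        · subst h
          rw [pderiv_X_self, map_one, if_pos rfl]
          ring
        · rw [pderiv_X_of_ne (Ne.symm h), map_zero, if_neg h]
          ring
      rw [Finset.sum_congr rfl fun j _ => h1 j, Finset.sum_add_distrib, Finset.sum_ite_eq' Finset.univ i,
        if_pos (Finset.mem_univ _)]

/-- the generators are algebraically independent over `ℂ(z)` -/
theorem evW_inj (ha : ∀ j, adm (a j)) (φ : κ → List Bool → ℚ) (h1 : ∀ j u, wt u ≠ wt (a j) → φ j u = 0) (h2 : ∀ j, φ j [] = 0)
    (h3 : ∀ j u v, u ≠ [] → v ≠ [] → S (qs u v) (φ j) = 0) (h4 : ∀ j, φ j (a j) = 1)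
    (h5 : ∀ i j, i ≠ j → φ i (a j) = 0) (n : ℕ) :
    ∀ R : MvPolynomial κ KK, R.totalDegree < n → evW a R = 0 → R = 0 := by
  classical
  induction n with
  | zero => intro R hR; exact absurd hR (Nat.not_lt_zero _)
  | succ n ih =>
    intro R hR hev
    by_contra hR0
    by_cases hvars : R.vars = ∅
    · have h0 : R.totalDegree = 0 := by
        rw [totalDegree_eq_zero_iff]
        intro m hm x
        by_contra hx
        have h7 : x ∈ R.vars :=
          (mem_vars_iff_mem_support x).2 ⟨m, hm, Finsupp.mem_support_iff.2 hx⟩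
        rw [hvars] at h7
        exact absurd h7 (Finset.notMem_empty _)
      have hC : R = C (coeff 0 R) := totalDegree_eq_zero_iff_eq_C.1 h0
      rw [hC, evW, coe_eval₂Hom, eval₂_C] at hev
      have h6 : coeff 0 R = 0 := (map_eq_zero_iff phi phi.injective).1 hev
      rw [h6, C_0] at hC
      exact hR0 hC
    · obtain ⟨b, hb, hmax⟩ := Finset.exists_max_image R.vars (fun j => wt (a j))
        (Finset.nonempty_iff_ne_empty.2 hvars)
      obtain ⟨m, hm, hmb⟩ := (mem_vars_iff_mem_support b).1 hb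
      rw [Finsupp.mem_support_iff] at hmb
      obtain ⟨x, hxa, hx1, hx2⟩ := evW_repr a ha (φ b) (h2 b) (h3 b) R
      have hx0 : x = 0 := E_inj x hxa (hx1.trans hev)
      rw [hx0, map_zero] at hx2
      have h6 : ∀ j, evW a (pderiv j R) * Dg (φ b) (a j) = if j = b then evW a (pderiv b R) else 0 := by
        intro j
        by_cases hj : j ∈ R.vars
        · rw [Dg_top (φ b) (h1 b) (hmax j hj)]
          by_cases hjb : j = b
          · rw [if_pos hjb, hjb, h4, Rat.cast_one, map_one, mul_one]
          · rw [if_neg hjb, h5 b j (Ne.symm hjb), Rat.cast_zero, map_zero, mul_zero]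
        · have hjb : j ≠ b := fun h => hj (h ▸ hb)
          rw [if_neg hjb, pderiv_eq_zero_of_notMem_vars hj, map_zero, zero_mul]
      rw [Finset.sum_congr rfl fun j _ => h6 j, Finset.sum_ite_eq' Finset.univ b,
        if_pos (Finset.mem_univ _)] at hx2
      have hle : (∑ i, m i) ≤ R.totalDegree := by
        have := le_totalDegree hm
        rwa [Finsupp.sum_fintype _ _ fun _ => rfl] at this
      have hpos : 0 < R.totalDegree := by
        have h7 : m b ≤ ∑ i, m i := Finset.single_le_sum (f := fun i => m i) (fun _ _ => Nat.zero_le _)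
          (Finset.mem_univ b)
        omega
      have hdeg : (pderiv b R).totalDegree < n := by
        refine (Finset.sup_lt_iff (show (0 : ℕ) < n by omega)).2 fun m' hm' => ?_
        rw [mem_support_iff, coeff_pderiv] at hm'
        have h7 : coeff (m' + Finsupp.single b 1) R ≠ 0 := left_ne_zero_of_mul hm'
        have h8 := le_totalDegree (mem_support_iff.2 h7)
        rw [Finsupp.sum_add_index' (fun _ => rfl) (fun _ _ _ => rfl), Finsupp.sum_single_index rfl] at h8
        omega
      have h7 := ih _ hdeg hx2.symm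
      have h8 := coeff_pderiv (i := b) R (m - Finsupp.single b 1)
      have h9 : m - Finsupp.single b 1 + Finsupp.single b 1 = m := by
        apply tsub_add_cancel_of_le
        rw [Finsupp.single_le_iff]
        omega
      rw [h7, coeff_zero, h9] at h8
      rcases mul_eq_zero.1 h8.symm with h10 | h10
      · exact (mem_support_iff.1 hm) h10
      · have h11 : ((((m - Finsupp.single b 1 : κ →₀ ℕ) b : ℕ) + 1 : ℕ) : KK) = 0 := by
          push_cast
          exact h10
        exact Nat.cast_ne_zero.2 (Nat.succ_ne_zero _) h11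

theorem locInd_gens (ha : ∀ j, adm (a j)) (φ : κ → List Bool → ℚ) (h1 : ∀ j u, wt u ≠ wt (a j) → φ j u = 0) (h2 : ∀ j, φ j [] = 0)
    (h3 : ∀ j u v, u ≠ [] → v ≠ [] → S (qs u v) (φ j) = 0) (h4 : ∀ j, φ j (a j) = 1)
    (h5 : ∀ i j, i ≠ j → φ i (a j) = 0) {z : ℂ} (hz : z ∈ Om) :
    Pool.Agent.Y124.LocInd (fun j => F (a j)) z := by
  refine Pool.Agent.Y771.RP.locInd_of (fun j => F (a j)) Om Om_pc (fun j t ht => F_analytic (a j) ht) ?_ z hz
  intro P hP
  have h6 : evG (fun (j : κ) (t : ℝ) => F (a j) (t : ℂ)) (Th P) = 0 := by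
    rw [evG_Th]
    refine Germ.coe_eq.2 ?_
    filter_upwards [eventually_gt_atTop 1] with t ht
    exact hP t (mem_Om_of ht)
  have h7 : evW a (Th P) = 0 := h6
  exact Th_inj ((evW_inj a ha φ h1 h2 h3 h4 h5 _ (Th P) (Nat.lt_succ_self _) h7).trans (map_zero _).symm)

end

/-- generators in weights at most `k` -/
theorem exists_generators (k : ℕ) : ∃ (κ : Type) (_ : Fintype κ) (a : κ → List Bool), (∀ j, adm (a j)) ∧
    (∀ z ∈ Om, Pool.Agent.Y124.LocInd (fun j => F (a j)) z) ∧
    ∀ w, adm w → wt w ≤ k → ∃ G : MvPolynomial κ ℚ, aeval (fun j => Fo (a j)) G = Fo w := by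
  obtain ⟨κ, hκ, a, φ, h0, h1, h2, h3, h4, h5, h6⟩ := exists_family k
  exact ⟨κ, hκ, a, h0, fun z hz => locInd_gens a h0 φ h1 h2 h3 h4 h5 hz, h6⟩

/-- words are linearly independent over `ℂ`, as functions on the half line -/
theorem words_indep {r : Type} [Fintype r] (W : r → List Bool) (hW : Function.Injective W)
    (hadm : ∀ i, adm (W i)) (c : r → ℂ)
    (h : ∀ᶠ t : ℝ in atTop, ∑ i, c i * F (W i) (t : ℂ) = 0) : c = 0 := by
  classical
  set x : List Bool →₀ KK := ∑ i, Finsupp.single (W i) (algebraMap (Polynomial ℂ) KK (Polynomial.C (c i))) with hx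
  have h1 : E x = ((fun t : ℝ => ∑ i, c i * F (W i) (t : ℂ) : ℝ → ℂ) : GG) := by
    rw [hx, map_sum]
    have h2 : ∀ i, E (Finsupp.single (W i) (algebraMap (Polynomial ℂ) KK (Polynomial.C (c i)))) =
        ((fun t : ℝ => c i * F (W i) (t : ℂ) : ℝ → ℂ) : GG) := by
      intro i
      rw [E_single, Pool.Agent.X142.AZ.phi_algebraMap, Pool.Agent.X142.AZ.ph0_apply]
      refine Germ.coe_eq.2 (Eventually.of_forall fun t => ?_)
      simp
    rw [Finset.sum_congr rfl fun i _ => h2 i]
    have h3 := map_sum (Germ.coeRingHom (atTop : Filter ℝ)) (fun i (t : ℝ) => c i * F (W i) (t : ℂ)) Finset.univ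
    refine (h3.symm).trans ?_
    show ((∑ i, fun t : ℝ => c i * F (W i) (t : ℂ) : ℝ → ℂ) : GG) = _
    congr 1
    funext t
    rw [Finset.sum_apply]
  have h2 : E x = 0 := by
    rw [h1]
    exact Germ.coe_eq.2 h
  have hxa : ∀ w ∈ x.support, adm w := by
    intro w hw
    rw [Finsupp.mem_support_iff, hx, Finsupp.finsetSum_apply] at hw
    obtain ⟨i, _, hi⟩ := Finset.exists_ne_zero_of_sum_ne_zero hw
    rw [Finsupp.single_apply] at hi
    by_cases h3 : W i = w
    · rw [← h3]
      exact hadm i
    · rw [if_neg h3] at hi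
      exact absurd rfl hi
  have h3 := E_inj x hxa h2
  funext i
  have h4 : x (W i) = algebraMap (Polynomial ℂ) KK (Polynomial.C (c i)) := by
    rw [hx, Finsupp.finsetSum_apply, Finset.sum_eq_single i]
    · rw [Finsupp.single_eq_same]
    · intro j _ hj
      rw [Finsupp.single_apply, if_neg fun h => hj (hW h)]
    · intro h
      exact absurd (Finset.mem_univ _) h
  rw [h3, Finsupp.zero_apply] at h4
  have h5 : Polynomial.C (c i) = 0 := (FaithfulSMul.algebraMap_eq_zero_iff (Polynomial ℂ) KK).1 h4.symm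
  exact Polynomial.C_eq_zero.1 h5

end Pool.Agent.X142.PL
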