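import Mathlib
import Pool.Agent.X142.PL.Ind
import Pool.Agent.X142.MZ.Gen

/-!
# Near relations between values of multiple polylogarithms
-/

set_option autoImplicit false

namespace Pool.Agent.X142.PL

open Filter Topology MvPolynomial NumberField

/-- finite sets of words: generators and polynomials -/
theorem exists_poly (I : Finset (List Bool)) (hI : ∀ s ∈ I, adm s) :
    ∃ (κ : Type) (_ : Fintype κ) (f : κ → ℂ → ℂ) (G : I → MvPolynomial κ ℚ),
      (∀ y, ∀ z ∈ Om, AnalyticAt ℂ (f y) z) ∧ (∀ z ∈ Om, Pool.Agent.Y124.LocInd f z) ∧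
      (∀ (s : I), ∀ z ∈ Om, aeval (fun y => f y z) (G s) = F s z) ∧
      ∀ c : I → ℂ, ∑ w, C (c w) * MvPolynomial.map (algebraMap ℚ ℂ) (G w) = 0 → c = 0 := by
  classical
  obtain ⟨κ, hκ, a, ha, hind, hgen⟩ := exists_generators (I.sup wt)
  have hG : ∀ s : I, ∃ G : MvPolynomial κ ℚ, aeval (fun j => Fo (a j)) G = Fo s := fun s =>
    hgen s (hI s s.2) (Finset.le_sup (f := wt) s.2)
  choose G hG using hG
  have hev : ∀ (s : I), ∀ z ∈ Om, aeval (fun y => F (a y) z) (G s) = F s z := by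
    intro s z hz
    have h1 := congrFun (hG s) ⟨z, hz⟩
    have h2 : aeval (fun j => Fo (a j)) (G s) ⟨z, hz⟩ = aeval (fun y => F (a y) z) (G s) := by
      have h3 := MvPolynomial.comp_aeval_apply (R := ℚ) (fun j => Fo (a j))
        (Pi.evalAlgHom ℚ (fun _ : Om => ℂ) ⟨z, hz⟩) (G s)
      exact h3
    rw [← h2, h1]
    rfl
  refine ⟨κ, hκ, fun y => F (a y), G, fun y z hz => F_analytic (a y) hz, hind,
    hev, fun c hc => ?_⟩
  refine words_indep (fun s : I => (s : List Bool)) (fun s t h => Subtype.ext h)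
    (fun s => hI s s.2) c ?_
  filter_upwards [eventually_gt_atTop 1] with t ht
  have h1 := congrArg (aeval (fun y => F (a y) (t : ℂ)) : MvPolynomial κ ℂ →ₐ[ℂ] ℂ) hc
  rw [map_zero, map_sum] at h1
  rw [← h1]
  refine Finset.sum_congr rfl fun s _ => ?_
  rw [map_mul, algHom_C, aeval_map_algebraMap, hev s _ (mem_Om_of ht)]
  rfl

/-- the main theorem -/
theorem mainX (I : Finset (List Bool)) (hI : ∀ s ∈ I, adm s) (L : Set ℂ) (hL : IsCompact L)
    (hL0 : ∀ z ∈ L, z ≠ 0 ∧ ‖z‖ < 1) (m g : ℕ) (A ε : ℝ) (hε : 0 < ε) :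
    ∃ B C₁ T₀ : ℝ, ∀ (F : Type) [Field F] [NumberField F], Module.finrank ℚ F ≤ m →
      ∀ (ι : F →+* ℂ) (ξ : Fin g → ℂ) (T : ℝ), T₀ ≤ T →
      ∃ X : Finset F, (X.card : ℝ) ≤ C₁ * T ^ ε ∧ ∀ x : F, ι x ∈ L →
        (∃ a c : 𝓞 F, c ≠ 0 ∧ (∀ φ : F →+* ℂ, ‖φ a‖ ≤ T ∧ ‖φ c‖ ≤ T) ∧ x = a / c) → x ∉ X →
        ∀ c : List Bool → Fin g → 𝓞 F, (∀ s ∈ I, ∀ i (φ : F →+* ℂ), ‖φ (c s i)‖ ≤ T ^ A) →
          ∀ s₀ ∈ I, T ^ (-B) * ‖∑ i, ξ i * ι (c s₀ i)‖ ≤
            ‖∑ s ∈ I, (∑ i, ξ i * ι (c s i)) * ev ℂ s (ι x)‖ := by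
  classical
  obtain ⟨κ, hκ, f, G, han, hind, hev, hG⟩ := exists_poly I hI
  have hL' : IsCompact ((fun z : ℂ => z⁻¹) '' L) :=
    hL.image_of_continuousOn fun z hz => (continuousAt_inv₀ (hL0 z hz).1).continuousWithinAt
  have hLO : ∀ t ∈ (fun z : ℂ => z⁻¹) '' L, t ∈ Om := by
    rintro _ ⟨z, hz, rfl⟩
    show 1 < ‖z⁻¹‖
    rw [norm_inv]
    exact (one_lt_inv₀ (norm_pos_iff.2 (hL0 z hz).1)).2 (hL0 z hz).2
  obtain ⟨B, C₁, T₀, H⟩ := Pool.Agent.X142.MZ.fewWordsX f _ hL' (fun y t ht => han y t (hLO t ht))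
    (fun t ht => hind t (hLO t ht)) G hG m g A ε hε
  refine ⟨B, C₁, T₀, fun K _ _ hF ι ξ T hT => ?_⟩
  obtain ⟨X, hX, h⟩ := H K hF ι ξ T hT
  refine ⟨X.image fun x => x⁻¹, ?_, fun x hxL hx hxX c hc s₀ hs₀ => ?_⟩
  · exact le_trans (by exact_mod_cast Finset.card_image_le) hX
  · have hx0 : x ≠ 0 := by
      rintro rfl
      exact (hL0 _ hxL).1 (map_zero ι)
    have h1 : ι x⁻¹ ∈ (fun z : ℂ => z⁻¹) '' L := ⟨ι x, hxL, (map_inv₀ ι x).symm⟩
    have h2 : ∃ a c : 𝓞 K, c ≠ 0 ∧ (∀ φ : K →+* ℂ, ‖φ a‖ ≤ T ∧ ‖φ c‖ ≤ T) ∧ x⁻¹ = a / c := by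
      obtain ⟨a, c, hc, h3, rfl⟩ := hx
      refine ⟨c, a, ?_, fun φ => ⟨(h3 φ).2, (h3 φ).1⟩, by rw [inv_div]⟩
      rintro rfl
      exact hx0 (by simp)
    have h3 : x⁻¹ ∉ X := fun h => hxX (Finset.mem_image.2 ⟨x⁻¹, h, inv_inv x⟩)
    refine (h x⁻¹ h1 h2 h3 (fun s i => c s i) (fun s i φ => hc s s.2 i φ) ⟨s₀, hs₀⟩).trans (le_of_eq ?_)
    congr 1
    rw [← Finset.sum_coe_sort I]
    refine Finset.sum_congr rfl fun s _ => ?_
    rw [hev s _ (hLO _ h1), F, map_inv₀, inv_inv]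

/-! ### Polynomial relations -/

/-- the ideal generated by the shuffle relations -/
noncomputable def J (R : Type) [CommRing R] : Ideal (MvPolynomial (List Bool) R) :=
  Ideal.span ({X [] - 1} ∪ {p | ∃ u v, adm u ∧ adm v ∧ p = X u * X v - ((qs u v).map X).sum})

lemma J_map {R R' : Type} [CommRing R] [CommRing R'] (f : R →+* R') {p : MvPolynomial (List Bool) R}
    (hp : p ∈ J R) : MvPolynomial.map f p ∈ J R' := by
  have h1 : J R ≤ (J R').comap (MvPolynomial.map f) := by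
    refine Ideal.span_le.2 ?_
    rintro q (hq | ⟨u, v, hu, hv, rfl⟩)
    · rw [Set.mem_singleton_iff.1 hq]
      show MvPolynomial.map f (X [] - 1) ∈ J R'
      rw [map_sub, map_X, map_one]
      exact Ideal.subset_span (Or.inl rfl)
    · show MvPolynomial.map f _ ∈ J R'
      rw [map_sub, map_mul, map_X, map_X, map_list_sum, List.map_map]
      refine Ideal.subset_span (Or.inr ⟨u, v, hu, hv, ?_⟩)
      congr 2
      exact List.map_congr_left fun w _ => map_X f w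
  exact h1 hp

lemma J_eval {R K : Type} [CommRing R] [NormedField K] [CompleteSpace K] [CharZero K] (f : R →+* K) {x : K}
    (hs : ∀ w, Summable fun n : ℕ => ‖(cc w n : K) * x ^ n‖) {p : MvPolynomial (List Bool) R}
    (hp : p ∈ J R) : eval₂ f (fun s => ev K s x) p = 0 := by
  have h1 : J R ≤ RingHom.ker (eval₂Hom f fun s => ev K s x) := by
    refine Ideal.span_le.2 ?_
    rintro q (hq | ⟨u, v, hu, hv, rfl⟩)
    · rw [Set.mem_singleton_iff.1 hq]
      show eval₂Hom f (fun s => ev K s x) (X [] - 1) = 0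
      rw [map_sub, map_one, eval₂Hom_X']
      have h2 : ev K [] x = 1 := by
        rw [ev, tsum_eq_single 0]
        · simp [cc]
        · intro n hn
          simp [cc, hn]
      rw [h2, sub_self]
    · show eval₂Hom f (fun s => ev K s x) _ = 0
      rw [map_sub, map_mul, eval₂Hom_X', eval₂Hom_X', map_list_sum, List.map_map, ev_mul hs hu hv, sub_eq_zero]
      unfold S
      congr 1
      exact List.map_congr_left fun w _ => (eval₂Hom_X' f (fun s => ev K s x) w).symm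
  exact h1 hp

/-- the linear polynomial with given coefficients -/
noncomputable def Ln : (List Bool →₀ ℤ) →ₗ[ℤ] MvPolynomial (List Bool) ℤ := Finsupp.linearCombination ℤ X

lemma Ln_single (w : List Bool) (c : ℤ) : Ln (Finsupp.single w c) = c • X w := by
  rw [Ln, Finsupp.linearCombination_single]

/-- polynomials that are linear modulo the shuffle relations -/
noncomputable def LinM : Submonoid (MvPolynomial (List Bool) ℤ) where
  carrier := {p | ∃ n ∈ Finsupp.supported ℤ ℤ {w : List Bool | adm w}, p - Ln n ∈ J ℤ}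
  one_mem' := by
    refine ⟨Finsupp.single [] 1, Finsupp.single_mem_supported ℤ 1 (show adm [] from trivial), ?_⟩
    rw [Ln_single, one_smul, ← neg_sub]
    exact neg_mem (Ideal.subset_span (Or.inl rfl))
  mul_mem' := by
    rintro p q ⟨n, hn, hp⟩ ⟨m, hm, hq⟩
    refine ⟨n.sum fun u a => m.sum fun v b => (a * b) • ((qs u v).map fun w => Finsupp.single w (1 : ℤ)).sum,
      ?_, ?_⟩
    · refine Submodule.sum_mem _ fun u hu => Submodule.sum_mem _ fun v hv => Submodule.smul_mem _ _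
        (list_sum_mem fun x hx => ?_)
      obtain ⟨w, hw, rfl⟩ := List.mem_map.1 hx
      exact Finsupp.single_mem_supported ℤ 1 (adm_qs u v (hn hu) (hm hv) w hw)
    · have h1 : p * q - Ln n * Ln m ∈ J ℤ := by
        have : p * q - Ln n * Ln m = q * (p - Ln n) + Ln n * (q - Ln m) := by ring
        rw [this]
        exact add_mem (Ideal.mul_mem_left _ _ hp) (Ideal.mul_mem_left _ _ hq)
      have h2 : Ln n * Ln m - Ln (n.sum fun u a => m.sum fun v b =>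
          (a * b) • ((qs u v).map fun w => Finsupp.single w (1 : ℤ)).sum) ∈ J ℤ := by
        have h3 : Ln n * Ln m - Ln (n.sum fun u a => m.sum fun v b =>
            (a * b) • ((qs u v).map fun w => Finsupp.single w (1 : ℤ)).sum) =
            ∑ u ∈ n.support, ∑ v ∈ m.support, (n u * m v) • (X u * X v - ((qs u v).map X).sum) := by
          have h4 : Ln n = ∑ u ∈ n.support, n u • X u := by
            rw [Ln, Finsupp.linearCombination_apply]
            rfl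
          have h5 : Ln m = ∑ u ∈ m.support, m u • X u := by
            rw [Ln, Finsupp.linearCombination_apply]
            rfl
          have h6 : Ln (n.sum fun u a => m.sum fun v b =>
              (a * b) • ((qs u v).map fun w => Finsupp.single w (1 : ℤ)).sum) =
              ∑ u ∈ n.support, ∑ v ∈ m.support, (n u * m v) • ((qs u v).map X).sum := by
            rw [Finsupp.sum, map_sum]
            refine Finset.sum_congr rfl fun u _ => ?_
            rw [Finsupp.sum, map_sum]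
            refine Finset.sum_congr rfl fun v _ => ?_
            rw [map_smul, map_list_sum, List.map_map]
            congr 2
            refine List.map_congr_left fun w _ => ?_
            rw [Function.comp_apply, Ln_single, one_smul]
          rw [h6, h4, h5, Finset.sum_mul_sum, ← Finset.sum_sub_distrib]
          refine Finset.sum_congr rfl fun u _ => ?_
          rw [← Finset.sum_sub_distrib]
          refine Finset.sum_congr rfl fun v _ => ?_
          rw [smul_sub, smul_mul_smul_comm]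
        rw [h3]
        exact Submodule.sum_mem _ fun u hu => Submodule.sum_mem _ fun v hv => by
          rw [zsmul_eq_mul]
          exact Ideal.mul_mem_left _ _ (Ideal.subset_span (Or.inr ⟨u, v, hn hu, hm hv, rfl⟩))
      have := add_mem h1 h2
      rwa [sub_add_sub_cancel] at this

lemma expand (d : List Bool →₀ ℕ) (hd : ∀ w ∈ d.support, adm w) :
    ∃ n : List Bool →₀ ℤ, (∀ w ∈ n.support, adm w) ∧ monomial d (1 : ℤ) - Ln n ∈ J ℤ := by
  have h1 : monomial d (1 : ℤ) ∈ LinM := by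
    rw [monomial_eq, C_1, one_mul]
    refine Submonoid.prod_mem _ fun w hw => Submonoid.pow_mem _ ?_ _
    exact ⟨Finsupp.single w 1, Finsupp.single_mem_supported ℤ 1 (hd w hw), by
      rw [Ln_single, one_smul, sub_self]
      exact zero_mem _⟩
  obtain ⟨n, hn, h⟩ := h1
  exact ⟨n, fun w hw => hn hw, h⟩

lemma map_Ln {R : Type} [CommRing R] (n : List Bool →₀ ℤ) {I : Finset (List Bool)} (hI : n.support ⊆ I) :
    MvPolynomial.map (Int.castRingHom R) (Ln n) = ∑ w ∈ I, C ((n w : ℤ) : R) * X w := by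
  rw [Ln, Finsupp.linearCombination_apply, Finsupp.sum_of_support_subset n hI
    (fun w a => a • (X w : MvPolynomial (List Bool) ℤ)) fun w _ => zero_smul ℤ _, map_sum]
  refine Finset.sum_congr rfl fun w _ => ?_
  rw [zsmul_eq_mul, map_mul, map_X, map_intCast]
  congr 1

lemma expand_map {R : Type} [CommRing R] {n : (List Bool →₀ ℕ) → List Bool →₀ ℤ} {M : Finset (List Bool →₀ ℕ)}
    (hn : ∀ d ∈ M, monomial d (1 : ℤ) - Ln (n d) ∈ J ℤ) {I : Finset (List Bool)}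
    (hI : ∀ d ∈ M, (n d).support ⊆ I) (c : (List Bool →₀ ℕ) → R) :
    ∑ d ∈ M, monomial d (c d) - ∑ w ∈ I, C (∑ d ∈ M, ((n d w : ℤ) : R) * c d) * X w ∈ J R := by
  have h1 : ∑ d ∈ M, monomial d (c d) - ∑ w ∈ I, C (∑ d ∈ M, ((n d w : ℤ) : R) * c d) * X w =
      ∑ d ∈ M, C (c d) * MvPolynomial.map (Int.castRingHom R) (monomial d (1 : ℤ) - Ln (n d)) := by
    have h2 : ∑ w ∈ I, C (∑ d ∈ M, ((n d w : ℤ) : R) * c d) * X w =
        ∑ d ∈ M, C (c d) * ∑ w ∈ I, (C ((n d w : ℤ) : R) * X w : MvPolynomial (List Bool) R) := by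
      simp only [map_sum, map_mul, Finset.sum_mul, Finset.mul_sum]
      rw [Finset.sum_comm]
      refine Finset.sum_congr rfl fun d _ => Finset.sum_congr rfl fun w _ => ?_
      ring
    rw [h2, ← Finset.sum_sub_distrib]
    refine Finset.sum_congr rfl fun d hd => ?_
    rw [map_sub, map_Ln (n d) (hI d hd), mul_sub, map_monomial, map_one, C_mul_monomial, mul_one]
  rw [h1]
  exact Submodule.sum_mem _ fun d hd => Ideal.mul_mem_left _ _ (J_map _ (hn d hd))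

/-- general coefficients -/
theorem polyQ (M : Finset (List Bool →₀ ℕ)) (hM : ∀ d ∈ M, ∀ s ∈ d.support, adm s) (L : Set ℂ)
    (hL : IsCompact L) (hL0 : ∀ z ∈ L, z ≠ 0 ∧ ‖z‖ < 1) (m g : ℕ) (A ε : ℝ) (hε : 0 < ε) :
    ∃ W : Finset (List Bool), (∀ w ∈ W, adm w) ∧ ∃ n : (List Bool →₀ ℕ) → List Bool →₀ ℤ,
      (∀ (R : Type) [CommRing R] (c : (List Bool →₀ ℕ) → R),
        ∑ d ∈ M, monomial d (c d) - ∑ w ∈ W, C (∑ d ∈ M, ((n d w : ℤ) : R) * c d) * X w ∈ J R) ∧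
      ∃ B C₁ T₀ : ℝ, ∀ (F : Type) [Field F] [NumberField F], Module.finrank ℚ F ≤ m →
      ∀ (ι : F →+* ℂ) (ξ : Fin g → ℂ) (T : ℝ), T₀ ≤ T →
      ∃ X : Finset F, (X.card : ℝ) ≤ C₁ * T ^ ε ∧ ∀ x : F, ι x ∈ L →
        (∃ a c : 𝓞 F, c ≠ 0 ∧ (∀ φ : F →+* ℂ, ‖φ a‖ ≤ T ∧ ‖φ c‖ ≤ T) ∧ x = a / c) → x ∉ X →
        ∀ c : (List Bool →₀ ℕ) → Fin g → 𝓞 F, (∀ d ∈ M, ∀ i (φ : F →+* ℂ), ‖φ (c d i)‖ ≤ T ^ A) →
          ∀ w ∈ W, T ^ (-B) * ‖∑ d ∈ M, ((n d w : ℤ) : ℂ) * ∑ i, ξ i * ι (c d i)‖ ≤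
            ‖∑ d ∈ M, (∑ i, ξ i * ι (c d i)) * d.prod fun s k => ev ℂ s (ι x) ^ k‖ := by
  classical
  have hex : ∀ d : List Bool →₀ ℕ, ∃ n : List Bool →₀ ℤ, d ∈ M → (∀ w ∈ n.support, adm w) ∧
      monomial d (1 : ℤ) - Ln n ∈ J ℤ := fun d => by
    by_cases hd : d ∈ M
    · obtain ⟨n, hn⟩ := expand d (hM d hd)
      exact ⟨n, fun _ => hn⟩
    · exact ⟨0, fun h => absurd h hd⟩
  choose n hn using hex
  set W : Finset (List Bool) := M.biUnion fun d => (n d).support with hW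
  have hWa : ∀ w ∈ W, adm w := fun w hw => by
    obtain ⟨d, hd, h⟩ := Finset.mem_biUnion.1 hw
    exact (hn d hd).1 w h
  have hWs : ∀ d ∈ M, (n d).support ⊆ W := fun d hd => Finset.subset_biUnion_of_mem (fun d => (n d).support) hd
  have hJ : ∀ (R : Type) [CommRing R] (c : (List Bool →₀ ℕ) → R),
        ∑ d ∈ M, monomial d (c d) - ∑ w ∈ W, C (∑ d ∈ M, ((n d w : ℤ) : R) * c d) * X w ∈ J R :=
    fun R _ c => expand_map (fun d hd => (hn d hd).2) hWs c
  -- bound for the integers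
  set N0 : ℝ := ∑ w ∈ W, ∑ d ∈ M, |(n d w : ℝ)| with hN0
  have hN0w : ∀ w ∈ W, ∑ d ∈ M, |(n d w : ℝ)| ≤ N0 := fun w hw =>
    Finset.single_le_sum (f := fun w => ∑ d ∈ M, |(n d w : ℝ)|)
      (fun _ _ => Finset.sum_nonneg fun _ _ => abs_nonneg _) hw
  obtain ⟨B, C₁, T₀, H⟩ := mainX W hWa L hL hL0 m g (A + 1) ε hε
  refine ⟨W, hWa, n, hJ, B, C₁, max T₀ (max N0 1), fun F _ _ hF ι ξ T hT => ?_⟩
  have hT0 : T₀ ≤ T := (le_max_left _ _).trans hT
  have hTN : N0 ≤ T := ((le_max_left _ _).trans (le_max_right _ _)).trans hT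
  have hT1 : 1 ≤ T := ((le_max_right _ _).trans (le_max_right _ _)).trans hT
  have hTp : 0 < T := lt_of_lt_of_le one_pos hT1
  obtain ⟨X, hX, h⟩ := H F hF ι ξ T hT0
  refine ⟨X, hX, fun x hxL hx hxX c hc w hw => ?_⟩
  have hc' : ∀ s ∈ W, ∀ i (φ : F →+* ℂ), ‖φ ((∑ d ∈ M, (n d s) • c d i : 𝓞 F) : F)‖ ≤ T ^ (A + 1) := by
    intro s hs i φ
    have h1 : φ ((∑ d ∈ M, (n d s) • c d i : 𝓞 F) : F) = ∑ d ∈ M, ((n d s : ℤ) : ℂ) * φ (c d i) := by
      show φ (algebraMap (𝓞 F) F (∑ d ∈ M, (n d s) • c d i)) = _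
      rw [map_sum, map_sum]
      refine Finset.sum_congr rfl fun d _ => ?_
      rw [zsmul_eq_mul, map_mul, map_mul, map_intCast, map_intCast]
    rw [h1]
    refine (norm_sum_le _ _).trans ?_
    have h2 : ∀ d ∈ M, ‖((n d s : ℤ) : ℂ) * φ (c d i)‖ ≤ |(n d s : ℝ)| * T ^ A := fun d hd => by
      rw [norm_mul, Complex.norm_intCast]
      exact mul_le_mul_of_nonneg_left (hc d hd i φ) (abs_nonneg _)
    refine (Finset.sum_le_sum h2).trans ?_
    rw [← Finset.sum_mul, Real.rpow_add hTp, Real.rpow_one, mul_comm]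
    exact mul_le_mul_of_nonneg_left ((hN0w s hs).trans hTN) (Real.rpow_nonneg hTp.le _)
  have h3 := h x hxL hx hxX (fun s i => ∑ d ∈ M, (n d s) • c d i) hc' w hw
  have h4 : ∀ s, ∑ i, ξ i * ι ((∑ d ∈ M, (n d s) • c d i : 𝓞 F) : F) =
      ∑ d ∈ M, ((n d s : ℤ) : ℂ) * ∑ i, ξ i * ι (c d i) := by
    intro s
    have h1 : ∀ i, ι ((∑ d ∈ M, (n d s) • c d i : 𝓞 F) : F) = ∑ d ∈ M, ((n d s : ℤ) : ℂ) * ι (c d i) := by
      intro i
      show ι (algebraMap (𝓞 F) F (∑ d ∈ M, (n d s) • c d i)) = _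
      rw [map_sum, map_sum]
      refine Finset.sum_congr rfl fun d _ => ?_
      rw [zsmul_eq_mul, map_mul, map_mul, map_intCast, map_intCast]
    simp only [h1, Finset.mul_sum]
    rw [Finset.sum_comm]
    refine Finset.sum_congr rfl fun d _ => Finset.sum_congr rfl fun i _ => ?_
    ring
  simp only [h4] at h3
  refine h3.trans (le_of_eq ?_)
  congr 1
  have h5 := J_eval (RingHom.id ℂ) (summable_C (hL0 _ hxL).2) (hJ ℂ fun d => ∑ i, ξ i * ι (c d i))
  rw [← coe_eval₂Hom, map_sub, sub_eq_zero, map_sum, map_sum] at h5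
  simp only [map_mul, coe_eval₂Hom, eval₂_C, eval₂_X, eval₂_monomial, RingHom.id_apply] at h5
  exact h5.symm

/-- every near relation of polynomial height is a consequence of the shuffle product -/
theorem polyJ (M : Finset (List Bool →₀ ℕ)) (hM : ∀ d ∈ M, ∀ s ∈ d.support, adm s) (L : Set ℂ)
    (hL : IsCompact L) (hL0 : ∀ z ∈ L, z ≠ 0 ∧ ‖z‖ < 1) (m : ℕ) (A ε : ℝ) (hε : 0 < ε) :
    ∃ B C₁ T₀ : ℝ, ∀ (F : Type) [Field F] [NumberField F], Module.finrank ℚ F ≤ m →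
      ∀ (ι : F →+* ℂ) (T : ℝ), T₀ ≤ T →
      ∃ X : Finset F, (X.card : ℝ) ≤ C₁ * T ^ ε ∧ ∀ x : F, ι x ∈ L →
        (∃ a c : 𝓞 F, c ≠ 0 ∧ (∀ φ : F →+* ℂ, ‖φ a‖ ≤ T ∧ ‖φ c‖ ≤ T) ∧ x = a / c) → x ∉ X →
        ∀ P : MvPolynomial (List Bool) (𝓞 F), P.support ⊆ M →
          (∀ d (φ : F →+* ℂ), ‖φ (P.coeff d : 𝓞 F)‖ ≤ T ^ A) →
          ‖eval₂ (ι.comp (algebraMap (𝓞 F) F)) (fun s => ev ℂ s (ι x)) P‖ ≤ T ^ (-B) → P ∈ J (𝓞 F) := by
  classical
  obtain ⟨W, hWa, n, hJ, B, C₁, T₀, H⟩ := polyQ M hM L hL hL0 m 1 (max A 0) ε hε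
  set N0 : ℝ := ∑ w ∈ W, ∑ d ∈ M, |(n d w : ℝ)| with hN0
  have hN0w : ∀ w ∈ W, ∑ d ∈ M, |(n d w : ℝ)| ≤ N0 := fun w hw =>
    Finset.single_le_sum (f := fun w => ∑ d ∈ M, |(n d w : ℝ)|)
      (fun _ _ => Finset.sum_nonneg fun _ _ => abs_nonneg _) hw
  refine ⟨B + (max A 0 + 1) * m + 1, C₁, max T₀ (max N0 2), fun F _ _ hF ι T hT => ?_⟩
  have hT0 : T₀ ≤ T := (le_max_left _ _).trans hT
  have hTN : N0 ≤ T := ((le_max_left _ _).trans (le_max_right _ _)).trans hT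
  have hT2 : 2 ≤ T := ((le_max_right _ _).trans (le_max_right _ _)).trans hT
  have hT1 : 1 ≤ T := one_le_two.trans hT2
  have hTp : 0 < T := lt_of_lt_of_le one_pos hT1
  obtain ⟨X, hX, h⟩ := H F hF ι (fun _ => 1) T hT0
  refine ⟨X, hX, fun x hxL hx hxX P hPM hP hsmall => ?_⟩
  have hPA : ∀ d (φ : F →+* ℂ), ‖φ (P.coeff d : 𝓞 F)‖ ≤ T ^ (max A 0) := fun d φ =>
    (hP d φ).trans (Real.rpow_le_rpow_of_exponent_le hT1 (le_max_left _ _))
  have hPsum : P = ∑ d ∈ M, monomial d (P.coeff d) := by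
    conv_lhs => rw [P.as_sum]
    refine Finset.sum_subset hPM fun d _ hd => ?_
    rw [notMem_support_iff.1 hd, map_zero]
  have h1 := h x hxL hx hxX (fun d _ => P.coeff d) (fun d _ _ φ => hPA d φ)
  have h2 := hJ (𝓞 F) fun d => P.coeff d
  rw [← hPsum] at h2
  have h3 : ∀ w ∈ W, ∑ d ∈ M, ((n d w : ℤ) : 𝓞 F) * P.coeff d = 0 := by
    intro w hw
    by_contra hne
    have h4 : ∀ φ : F →+* ℂ, φ ((∑ d ∈ M, ((n d w : ℤ) : 𝓞 F) * P.coeff d : 𝓞 F) : F) =
        ∑ d ∈ M, ((n d w : ℤ) : ℂ) * φ (P.coeff d : 𝓞 F) := by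
      intro φ
      show φ (algebraMap (𝓞 F) F (∑ d ∈ M, ((n d w : ℤ) : 𝓞 F) * P.coeff d)) = _
      rw [map_sum, map_sum]
      refine Finset.sum_congr rfl fun d _ => ?_
      rw [map_mul, map_mul, map_intCast, map_intCast]
    have h5 : ∀ φ : F →+* ℂ, ‖φ ((∑ d ∈ M, ((n d w : ℤ) : 𝓞 F) * P.coeff d : 𝓞 F) : F)‖ ≤
        T ^ (max A 0 + 1) := by
      intro φ
      rw [h4]
      refine (norm_sum_le _ _).trans ?_
      have h6 : ∀ d ∈ M, ‖((n d w : ℤ) : ℂ) * φ (P.coeff d : 𝓞 F)‖ ≤ |(n d w : ℝ)| * T ^ (max A 0) :=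
        fun d hd => by
          rw [norm_mul, Complex.norm_intCast]
          exact mul_le_mul_of_nonneg_left (hPA d φ) (abs_nonneg _)
      refine (Finset.sum_le_sum h6).trans ?_
      rw [← Finset.sum_mul, Real.rpow_add hTp, Real.rpow_one, mul_comm]
      exact mul_le_mul_of_nonneg_left ((hN0w w hw).trans hTN) (Real.rpow_nonneg hTp.le _)
    have h7 := Pool.Agent.X142.MZ.liouville hne ι (Real.one_le_rpow hT1 (by positivity)) h5 hF
    rw [h4] at h7
    have h8 := h1 w hw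
    simp only [Finset.univ_unique, Finset.sum_singleton, one_mul] at h8
    have h9 : ∑ d ∈ M, ι (P.coeff d : 𝓞 F) * d.prod (fun s k => ev ℂ s (ι x) ^ k) =
        eval₂ (ι.comp (algebraMap (𝓞 F) F)) (fun s => ev ℂ s (ι x)) P := by
      conv_rhs => rw [hPsum]
      rw [← coe_eval₂Hom, map_sum]
      refine Finset.sum_congr rfl fun d _ => ?_
      rw [coe_eval₂Hom, eval₂_monomial]
      rfl
    rw [h9] at h8
    have h10 : T ^ (-B) * ‖∑ d ∈ M, ((n d w : ℤ) : ℂ) * ι (P.coeff d : 𝓞 F)‖ ≤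
        T ^ (-(B + (max A 0 + 1) * m + 1)) := h8.trans hsmall
    have h11 : (T ^ (max A 0 + 1)) ^ m = T ^ ((max A 0 + 1) * m) := by
      rw [← Real.rpow_natCast, ← Real.rpow_mul hTp.le]
    rw [h11] at h7
    have h12 : T ^ (-B) ≤ T ^ (-B - 1) := by
      calc T ^ (-B) = T ^ (-B) * 1 := (mul_one _).symm
        _ ≤ T ^ (-B) * (‖∑ d ∈ M, ((n d w : ℤ) : ℂ) * ι (P.coeff d : 𝓞 F)‖ * T ^ ((max A 0 + 1) * m)) :=
            mul_le_mul_of_nonneg_left h7 (Real.rpow_nonneg hTp.le _)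
        _ = (T ^ (-B) * ‖∑ d ∈ M, ((n d w : ℤ) : ℂ) * ι (P.coeff d : 𝓞 F)‖) * T ^ ((max A 0 + 1) * m) := by ring
        _ ≤ T ^ (-(B + (max A 0 + 1) * m + 1)) * T ^ ((max A 0 + 1) * m) :=
            mul_le_mul_of_nonneg_right h10 (Real.rpow_nonneg hTp.le _)
        _ = T ^ (-B - 1) := by
            rw [← Real.rpow_add hTp]
            congr 1
            ring
    have h13 : T ^ (-B - 1) < T ^ (-B) :=
      Real.rpow_lt_rpow_of_exponent_lt (lt_of_lt_of_le one_lt_two hT2) (by linarith)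
    exact absurd h12 (not_le.2 h13)
  have h14 : ∑ w ∈ W, C (∑ d ∈ M, ((n d w : ℤ) : 𝓞 F) * P.coeff d) *
      (MvPolynomial.X w : MvPolynomial (List Bool) (𝓞 F)) = 0 :=
    Finset.sum_eq_zero fun w hw => by rw [h3 w hw, C_0, zero_mul]
  rw [h14, sub_zero] at h2
  exact h2

end Pool.Agent.X142.PL
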