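import Mathlib
import Pool.Agent.X142.PL.Main

/-!
# Real (complex) and `p`-adic multiple polylogarithms
-/

set_option autoImplicit false

namespace Pool.Agent.X142.PL

open Filter Topology MvPolynomial NumberField

section padic

variable {p : ℕ} [Fact p.Prime]

lemma one_le_natCast {n : ℕ} (hn : n ≠ 0) : 1 ≤ ‖((n : ℕ) : ℚ_[p])‖ * n := by
  have h0 : ((n : ℕ) : ℚ_[p]) ≠ 0 := by exact_mod_cast hn
  rw [Padic.norm_eq_zpow_neg_valuation h0, Padic.valuation_natCast, zpow_neg, zpow_natCast]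
  have hp : (0 : ℝ) < (p : ℝ) ^ padicValNat p n := by
    have : 0 < p := (Fact.out : p.Prime).pos
    positivity
  rw [inv_mul_eq_div, one_le_div hp]
  have h1 : p ^ padicValNat p n ≤ n := Nat.le_of_dvd (Nat.pos_of_ne_zero hn) pow_padicValNat_dvd
  exact_mod_cast h1

lemma norm_div_le {q : ℚ} {n : ℕ} {K : ℝ} (hK : ‖((q : ℚ) : ℚ_[p])‖ ≤ K) :
    ‖((q / n : ℚ) : ℚ_[p])‖ ≤ K * n := by
  rcases Nat.eq_zero_or_pos n with rfl | hn
  · simp
  · have h1 := one_le_natCast (p := p) hn.ne'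
    have h0 : (0 : ℝ) < ‖((n : ℕ) : ℚ_[p])‖ := norm_pos_iff.2 (by exact_mod_cast hn.ne')
    push_cast
    rw [norm_div, div_le_iff₀ h0]
    have hK0 : 0 ≤ K := (norm_nonneg _).trans hK
    calc ‖((q : ℚ) : ℚ_[p])‖ ≤ K * 1 := by rwa [mul_one]
      _ ≤ K * (‖((n : ℕ) : ℚ_[p])‖ * n) := mul_le_mul_of_nonneg_left h1 hK0
      _ = K * n * ‖((n : ℕ) : ℚ_[p])‖ := by ring

lemma cc_padic : ∀ (w : List Bool) (n : ℕ), ‖((cc w n : ℚ) : ℚ_[p])‖ ≤ ((n : ℝ) + 1) ^ w.length
  | [], n => by
    rw [cc]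
    split_ifs <;> simp
  | false :: w, n => by
    rw [cc, List.length_cons, pow_succ]
    refine (norm_div_le (cc_padic w n)).trans ?_
    exact mul_le_mul_of_nonneg_left (by linarith) (by positivity)
  | true :: w, n => by
    rw [cc, List.length_cons, pow_succ]
    refine (norm_div_le (K := ((n : ℝ) + 1) ^ w.length) ?_).trans ?_
    · push_cast
      refine IsUltrametricDist.norm_sum_le_of_forall_le_of_nonneg (by positivity) fun k hk => ?_
      refine (cc_padic w k).trans ?_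
      have hk' : (k : ℝ) ≤ n := by exact_mod_cast (Finset.mem_range.1 hk).le
      exact pow_le_pow_left₀ (by positivity) (by linarith) _
    · exact mul_le_mul_of_nonneg_left (by linarith) (by positivity)

lemma summable_padic {K : Type} [NormedField K] [NormedAlgebra ℚ_[p] K] {y : K}
    (hy : ‖y‖ < 1) (w : List Bool) : Summable fun n : ℕ => ‖((cc w n : ℚ) : K) * y ^ n‖ := by
  have h1 : Summable fun n : ℕ => ((n : ℝ) + 1) ^ w.length * ‖y‖ ^ n := by
    rcases (norm_nonneg y).eq_or_lt with h0 | h0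
    · rw [← h0]
      refine summable_of_ne_finset_zero (s := {0}) fun n hn => ?_
      rw [zero_pow (by simpa using hn), mul_zero]
    · have h2 := summable_pow_mul_geometric_of_norm_lt_one (R := ℝ) w.length (r := ‖y‖)
        (by rwa [norm_norm])
      have h3 := (summable_nat_add_iff 1).2 h2
      have h4 := h3.mul_right ‖y‖⁻¹
      refine h4.congr fun n => ?_
      push_cast
      rw [pow_succ]
      field_simp
  refine Summable.of_nonneg_of_le (fun _ => norm_nonneg _) (fun n => ?_) h1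
  rw [norm_mul, norm_pow]
  have h2 : ((cc w n : ℚ) : K) = algebraMap ℚ_[p] K ((cc w n : ℚ) : ℚ_[p]) := (map_ratCast _ _).symm
  rw [h2, norm_algebraMap']
  exact mul_le_mul_of_nonneg_right (cc_padic w n) (by positivity)

end padic

/-! ### Indices -/

/-- the coefficients of `Li_s`, the first entry of the index belongs to the largest variable -/
def aa : List ℕ → ℕ → ℚ
  | [], n => if n = 0 then 1 else 0
  | s :: w, n => (∑ k ∈ Finset.range n, aa w k) / (n : ℚ) ^ s

/-- the word of an index -/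
def wd : List ℕ → List Bool
  | [] => []
  | s :: w => List.replicate (s - 1) false ++ true :: wd w

lemma cc_replicate (w : List Bool) (n : ℕ) : ∀ k : ℕ,
    cc (List.replicate k false ++ w) n = cc w n / (n : ℚ) ^ k
  | 0 => by rw [List.replicate_zero, List.nil_append, pow_zero, div_one]
  | k + 1 => by
    rw [List.replicate_succ, List.cons_append, cc, cc_replicate w n k, div_div, pow_succ]

lemma cc_wd : ∀ (s : List ℕ), (∀ a ∈ s, 1 ≤ a) → ∀ n, cc (wd s) n = aa s n
  | [], _, n => rfl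
  | s :: w, h, n => by
    have hs : 1 ≤ s := h s List.mem_cons_self
    have ih := cc_wd w fun a ha => h a (List.mem_cons_of_mem _ ha)
    rw [wd, cc_replicate, cc, aa, div_div]
    simp only [ih]
    congr 1
    rw [← pow_succ']
    congr 1
    omega

lemma adm_append (u : List Bool) {v : List Bool} (hv : v ≠ []) (h : adm v) : adm (u ++ v) := by
  induction u with
  | nil => exact h
  | cons a u ih => exact adm_cons (by simp [hv]) ih

lemma adm_wd : ∀ s : List ℕ, adm (wd s)
  | [] => trivial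
  | s :: w => by
    rw [wd]
    refine adm_append _ (List.cons_ne_nil _ _) ?_
    cases h : wd w with
    | nil => rfl
    | cons b v =>
      have := adm_wd w
      rw [h] at this
      exact this

/-- the multiple polylogarithm -/
noncomputable def Li (K : Type) [NormedField K] (s : List ℕ) (x : K) : K := ∑' n : ℕ, ((aa s n : ℚ) : K) * x ^ n

lemma Li_eq {K : Type} [NormedField K] {s : List ℕ} (hs : ∀ a ∈ s, 1 ≤ a) (x : K) : Li K s x = ev K (wd s) x := by
  unfold Li ev
  simp only [cc_wd s hs]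

/-- relations between complex values are `p`-adic relations -/
theorem realPadic (M : Finset (List ℕ →₀ ℕ)) (hM : ∀ d ∈ M, ∀ s ∈ d.support, ∀ a ∈ s, 1 ≤ a) (L : Set ℂ)
    (hL : IsCompact L) (hL0 : ∀ z ∈ L, z ≠ 0 ∧ ‖z‖ < 1) (m : ℕ) (A ε : ℝ) (hε : 0 < ε) :
    ∃ B C₁ T₀ : ℝ, ∀ (F : Type) [Field F] [NumberField F], Module.finrank ℚ F ≤ m →
      ∀ (ι : F →+* ℂ) (T : ℝ), T₀ ≤ T →
      ∃ X : Finset F, (X.card : ℝ) ≤ C₁ * T ^ ε ∧ ∀ x : F, ι x ∈ L →
        (∃ a c : 𝓞 F, c ≠ 0 ∧ (∀ φ : F →+* ℂ, ‖φ a‖ ≤ T ∧ ‖φ c‖ ≤ T) ∧ x = a / c) → x ∉ X →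
        ∀ P : MvPolynomial (List ℕ) (𝓞 F), P.support ⊆ M →
          (∀ d (φ : F →+* ℂ), ‖φ (P.coeff d : 𝓞 F)‖ ≤ T ^ A) →
          ‖eval₂ (ι.comp (algebraMap (𝓞 F) F)) (fun s => Li ℂ s (ι x)) P‖ ≤ T ^ (-B) →
          (∀ z : ℂ, ‖z‖ < 1 → eval₂ (ι.comp (algebraMap (𝓞 F) F)) (fun s => Li ℂ s z) P = 0) ∧
          ∀ (p : ℕ) [Fact p.Prime] (K : Type) [NormedField K] [NormedAlgebra ℚ_[p] K] [CompleteSpace K]
            (σ : F →+* K) (y : K), ‖y‖ < 1 →
            eval₂ (σ.comp (algebraMap (𝓞 F) F)) (fun s => Li K s y) P = 0 := by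
  classical
  set M' : Finset (List Bool →₀ ℕ) := M.image (Finsupp.mapDomain wd) with hM'
  have hMadm : ∀ d ∈ M', ∀ s ∈ d.support, adm s := by
    intro d hd s hs
    obtain ⟨e, he, rfl⟩ := Finset.mem_image.1 hd
    have := Finsupp.mapDomain_support hs
    obtain ⟨t, ht, rfl⟩ := Finset.mem_image.1 this
    exact adm_wd t
  obtain ⟨B, C₁, T₀, H⟩ := polyJ M' hMadm L hL hL0 m (A + 1) ε hε
  refine ⟨B, C₁, max T₀ (max M.card 1), fun F _ _ hF ι T hT => ?_⟩
  have hT0 : T₀ ≤ T := (le_max_left _ _).trans hT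
  have hTN : (M.card : ℝ) ≤ T := ((le_max_left _ _).trans (le_max_right _ _)).trans hT
  have hT1 : 1 ≤ T := ((le_max_right _ _).trans (le_max_right _ _)).trans hT
  have hTp : 0 < T := lt_of_lt_of_le one_pos hT1
  obtain ⟨X, hX, h⟩ := H F hF ι T hT0
  refine ⟨X, hX, fun x hxL hx hxX P hPM hP hsmall => ?_⟩
  have hPsum : P = ∑ d ∈ M, monomial d (P.coeff d) := by
    conv_lhs => rw [P.as_sum]
    refine Finset.sum_subset hPM fun d _ hd => ?_
    rw [notMem_support_iff.1 hd, map_zero]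
  have hQ : rename wd P = ∑ d ∈ M, monomial (Finsupp.mapDomain wd d) (P.coeff d) := by
    conv_lhs => rw [hPsum]
    rw [map_sum]
    exact Finset.sum_congr rfl fun d _ => rename_monomial _ _ _
  -- evaluation
  have hev : ∀ (R : Type) [NormedField R] (f : 𝓞 F →+* R) (y : R),
      eval₂ f (fun s => Li R s y) P = eval₂ f (fun w => ev R w y) (rename wd P) := by
    intro R _ f y
    rw [eval₂_rename]
    conv_lhs => rw [hPsum]
    conv_rhs => rw [hPsum]
    rw [← coe_eval₂Hom, ← coe_eval₂Hom, map_sum, map_sum]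
    refine Finset.sum_congr rfl fun d hd => ?_
    rw [coe_eval₂Hom, coe_eval₂Hom, eval₂_monomial, eval₂_monomial]
    congr 1
    refine Finset.prod_congr rfl fun s hs => ?_
    show Li R s y ^ d s = ev R (wd s) y ^ d s
    rw [Li_eq (hM d hd s hs)]
  have hsupp : (rename wd P).support ⊆ M' := by
    rw [hQ]
    intro d hd
    rw [mem_support_iff, coeff_sum] at hd
    obtain ⟨e, he, h1⟩ := Finset.exists_ne_zero_of_sum_ne_zero hd
    rw [coeff_monomial] at h1
    by_cases h2 : Finsupp.mapDomain wd e = d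
    · exact Finset.mem_image.2 ⟨e, he, h2⟩
    · rw [if_neg h2] at h1
      exact absurd rfl h1
  have hcoef : ∀ d (φ : F →+* ℂ), ‖φ ((rename wd P).coeff d : 𝓞 F)‖ ≤ T ^ (A + 1) := by
    intro d φ
    rw [hQ, coeff_sum]
    have h1 : φ ((∑ e ∈ M, coeff d (monomial (Finsupp.mapDomain wd e) (P.coeff e)) : 𝓞 F) : F) =
        ∑ e ∈ M, φ ((coeff d (monomial (Finsupp.mapDomain wd e) (P.coeff e)) : 𝓞 F) : F) := by
      show φ (algebraMap (𝓞 F) F (∑ e ∈ M, coeff d (monomial (Finsupp.mapDomain wd e) (P.coeff e)))) = _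
      rw [map_sum, map_sum]
    rw [h1]
    refine (norm_sum_le _ _).trans ?_
    have h2 : ∀ e ∈ M, ‖φ ((coeff d (monomial (Finsupp.mapDomain wd e) (P.coeff e)) : 𝓞 F) : F)‖ ≤ T ^ A := by
      intro e _
      rw [coeff_monomial]
      split_ifs
      · exact hP e φ
      · show ‖φ (algebraMap (𝓞 F) F 0)‖ ≤ _
        rw [map_zero, map_zero, norm_zero]
        exact Real.rpow_nonneg hTp.le _
    refine (Finset.sum_le_sum h2).trans ?_
    rw [Finset.sum_const, nsmul_eq_mul, Real.rpow_add hTp, Real.rpow_one, mul_comm]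
    exact mul_le_mul_of_nonneg_left hTN (Real.rpow_nonneg hTp.le _)
  have hJ := h x hxL hx hxX (rename wd P) hsupp hcoef (by rw [← hev]; exact hsmall)
  refine ⟨fun z hz => ?_, fun p _ K _ _ _ σ y hy => ?_⟩
  · rw [hev]
    exact J_eval _ (summable_C hz) hJ
  · have : CharZero K := charZero_of_injective_algebraMap (algebraMap ℚ_[p] K).injective
    rw [hev]
    exact J_eval _ (summable_padic (p := p) hy) hJ

end Pool.Agent.X142.PL
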