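import Mathlib
import Pool.Agent.X142.PL.Padic

/-!
# Generators of the algebra of multiple polylogarithms, and estimates for partial sums
-/

set_option autoImplicit false

namespace Pool.Agent.X142.PL

open NumberField MvPolynomial Filter Topology

/-- generators in weights at most `k`, algebraically independent at almost all arguments -/
theorem gens (k : ℕ) : ∃ (κ : Type) (_ : Fintype κ) (a : κ → List Bool), (∀ j, adm (a j)) ∧
    (∀ w, adm w → w.length ≤ k → ∃ G : MvPolynomial κ ℚ, ∀ z : ℂ, z ≠ 0 → ‖z‖ < 1 →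
      aeval (fun j => ev ℂ (a j) z) G = ev ℂ w z) ∧
    ∀ (M : Finset (κ →₀ ℕ)) (L : Set ℂ), IsCompact L → (∀ z ∈ L, z ≠ 0 ∧ ‖z‖ < 1) →
    ∀ (m g : ℕ) (A ε : ℝ), 0 < ε →
    ∃ B C₁ T₀ : ℝ, ∀ (F : Type) [Field F] [NumberField F], Module.finrank ℚ F ≤ m →
      ∀ (ι : F →+* ℂ) (ξ : Fin g → ℂ) (T : ℝ), T₀ ≤ T →
      ∃ X : Finset F, (X.card : ℝ) ≤ C₁ * T ^ ε ∧ ∀ x : F, ι x ∈ L →
        (∃ a c : 𝓞 F, c ≠ 0 ∧ (∀ φ : F →+* ℂ, ‖φ a‖ ≤ T ∧ ‖φ c‖ ≤ T) ∧ x = a / c) → x ∉ X →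
        ∀ c : (κ →₀ ℕ) → Fin g → 𝓞 F, (∀ d ∈ M, ∀ i (φ : F →+* ℂ), ‖φ (c d i)‖ ≤ T ^ A) →
          ∀ d₀ ∈ M, T ^ (-B) * ‖∑ i, ξ i * ι (c d₀ i)‖ ≤
            ‖∑ d ∈ M, (∑ i, ξ i * ι (c d i)) * d.prod fun j e => ev ℂ (a j) (ι x) ^ e‖ := by
  classical
  obtain ⟨κ, hκ, a, ha, hind, hgen⟩ := exists_generators k
  refine ⟨κ, hκ, a, ha, fun w hw hk => ?_, ?_⟩
  · obtain ⟨G, hG⟩ := hgen w hw (by rw [wt_eq_length]; exact hk)
    refine ⟨G, fun z hz0 hz1 => ?_⟩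
    have ht : z⁻¹ ∈ Om := by
      show 1 < ‖z⁻¹‖
      rw [norm_inv]
      exact (one_lt_inv₀ (norm_pos_iff.2 hz0)).2 hz1
    have h1 := congrFun hG ⟨z⁻¹, ht⟩
    have h3 := MvPolynomial.comp_aeval_apply (R := ℚ) (fun j => Fo (a j))
      (Pi.evalAlgHom ℚ (fun _ : Om => ℂ) ⟨z⁻¹, ht⟩) G
    have h4 : (fun j => ev ℂ (a j) z) = fun j => F (a j) z⁻¹ := by
      funext j
      rw [F, inv_inv]
    rw [h4]
    have h5 : ev ℂ w z = F w z⁻¹ := by rw [F, inv_inv]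
    rw [h5]
    refine Eq.trans ?_ h1
    exact h3.symm
  · intro M L hL hL0 m g A ε hε
    have hG : ∀ c : M → ℂ, ∑ w, C (c w) * MvPolynomial.map (algebraMap ℚ ℂ) (monomial (w : κ →₀ ℕ) (1 : ℚ)) = 0 →
        c = 0 := by
      intro c hc
      funext w
      have h1 := congrArg (coeff (w : κ →₀ ℕ)) hc
      rw [coeff_sum, coeff_zero] at h1
      simp only [map_monomial, map_one, C_mul_monomial, mul_one, coeff_monomial] at h1
      rw [Finset.sum_eq_single w] at h1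
      · rw [if_pos rfl] at h1
        exact h1
      · intro b _ hb
        exact if_neg fun h => hb (Subtype.ext h)
      · intro h
        exact absurd (Finset.mem_univ _) h
    have hL' : IsCompact ((fun z : ℂ => z⁻¹) '' L) :=
      hL.image_of_continuousOn fun z hz => (continuousAt_inv₀ (hL0 z hz).1).continuousWithinAt
    have hLO : ∀ t ∈ (fun z : ℂ => z⁻¹) '' L, t ∈ Om := by
      rintro _ ⟨z, hz, rfl⟩
      show 1 < ‖z⁻¹‖
      rw [norm_inv]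
      exact (one_lt_inv₀ (norm_pos_iff.2 (hL0 z hz).1)).2 (hL0 z hz).2
    obtain ⟨B, C₁, T₀, H⟩ := Pool.Agent.X142.MZ.fewWordsX (fun j => F (a j)) _ hL'
      (fun y t ht => F_analytic (a y) (hLO t ht)) (fun t ht => hind t (hLO t ht))
      (fun w : M => monomial (w : κ →₀ ℕ) (1 : ℚ)) hG m g A ε hε
    refine ⟨B, C₁, T₀, fun K _ _ hF ι ξ T hT => ?_⟩
    obtain ⟨X, hX, h⟩ := H K hF ι ξ T hT
    refine ⟨X.image fun x => x⁻¹, ?_, fun x hxL hx hxX c hc d₀ hd₀ => ?_⟩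
    · exact le_trans (by exact_mod_cast Finset.card_image_le) hX
    · have hx0 : x ≠ 0 := by
        rintro rfl
        exact (hL0 _ hxL).1 (map_zero ι)
      have h1 : ι x⁻¹ ∈ (fun z : ℂ => z⁻¹) '' L := ⟨ι x, hxL, (map_inv₀ ι x).symm⟩
      have h2 : ∃ a c : 𝓞 K, c ≠ 0 ∧ (∀ φ : K →+* ℂ, ‖φ a‖ ≤ T ∧ ‖φ c‖ ≤ T) ∧ x⁻¹ = a / c := by
        obtain ⟨a, c, hc, h3, rfl⟩ := hx
        refine ⟨c, a, ?_, fun φ => ⟨(h3 φ).2, (h3 φ).1⟩, by rw [inv_div]⟩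
        rintro rfl
        exact hx0 (by simp)
      have h3 : x⁻¹ ∉ X := fun h => hxX (Finset.mem_image.2 ⟨x⁻¹, h, inv_inv x⟩)
      refine (h x⁻¹ h1 h2 h3 (fun w i => c w i) (fun w i φ => hc w w.2 i φ) ⟨d₀, hd₀⟩).trans (le_of_eq ?_)
      congr 1
      rw [← Finset.sum_coe_sort M]
      refine Finset.sum_congr rfl fun w _ => ?_
      congr 1
      rw [aeval_monomial, map_one, one_mul]
      refine Finsupp.prod_congr fun j _ => ?_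
      rw [F, map_inv₀, inv_inv]

lemma exists_bound (I : Finset (List Bool)) (L : Set ℂ) (hL : IsCompact L)
    (hL0 : ∀ z ∈ L, z ≠ 0 ∧ ‖z‖ < 1) : ∃ K : ℝ, 0 ≤ K ∧ ∀ s ∈ I, ∀ z ∈ L, ‖ev ℂ s z‖ ≤ K := by
  classical
  induction I using Finset.induction_on with
  | empty => exact ⟨0, le_rfl, fun s hs => absurd hs (Finset.notMem_empty s)⟩
  | insert a I ha ih =>
    obtain ⟨K, hK, h⟩ := ih
    obtain ⟨K', h'⟩ := hL.exists_bound_of_continuousOn (f := fun z => ev ℂ a z) fun z hz =>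
      (hasDerivAt_ev a (hL0 z hz).2).continuousAt.continuousWithinAt
    refine ⟨max K K', hK.trans (le_max_left _ _), fun s hs z hz => ?_⟩
    rcases Finset.mem_insert.1 hs with rfl | hs
    · exact (h' z hz).trans (le_max_right _ _)
    · exact (h s hs z hz).trans (le_max_left _ _)

/-- a polynomial near relation at one argument is a near identity on a whole compact set -/
theorem spread (M : Finset (List Bool →₀ ℕ)) (hM : ∀ d ∈ M, ∀ s ∈ d.support, adm s) (L : Set ℂ)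
    (hL : IsCompact L) (hL0 : ∀ z ∈ L, z ≠ 0 ∧ ‖z‖ < 1) (m g : ℕ) (A ε : ℝ) (hε : 0 < ε) :
    ∃ B C₁ T₀ : ℝ, ∀ (F : Type) [Field F] [NumberField F], Module.finrank ℚ F ≤ m →
      ∀ (ι : F →+* ℂ) (ξ : Fin g → ℂ) (T : ℝ), T₀ ≤ T →
      ∃ X : Finset F, (X.card : ℝ) ≤ C₁ * T ^ ε ∧ ∀ x : F, ι x ∈ L →
        (∃ a c : 𝓞 F, c ≠ 0 ∧ (∀ φ : F →+* ℂ, ‖φ a‖ ≤ T ∧ ‖φ c‖ ≤ T) ∧ x = a / c) → x ∉ X →
        ∀ c : (List Bool →₀ ℕ) → Fin g → 𝓞 F, (∀ d ∈ M, ∀ i (φ : F →+* ℂ), ‖φ (c d i)‖ ≤ T ^ A) →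
          ∀ z ∈ L, ‖∑ d ∈ M, (∑ i, ξ i * ι (c d i)) * d.prod fun s k => ev ℂ s z ^ k‖ ≤
            T ^ B * ‖∑ d ∈ M, (∑ i, ξ i * ι (c d i)) * d.prod fun s k => ev ℂ s (ι x) ^ k‖ := by
  classical
  obtain ⟨W, hWa, n, hJ, B, C₁, T₀, H⟩ := polyQ M hM L hL hL0 m g A ε hε
  obtain ⟨K, hK, hKL⟩ := exists_bound W L hL hL0
  refine ⟨B + 1, C₁, max T₀ (max (W.card * K) 1), fun F _ _ hF ι ξ T hT => ?_⟩
  have hT0 : T₀ ≤ T := (le_max_left _ _).trans hT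
  have hTK : W.card * K ≤ T := ((le_max_left _ _).trans (le_max_right _ _)).trans hT
  have hT1 : 1 ≤ T := ((le_max_right _ _).trans (le_max_right _ _)).trans hT
  have hTp : 0 < T := lt_of_lt_of_le one_pos hT1
  obtain ⟨X, hX, h⟩ := H F hF ι ξ T hT0
  refine ⟨X, hX, fun x hxL hx hxX c hc z hz => ?_⟩
  set N := ‖∑ d ∈ M, (∑ i, ξ i * ι (c d i)) * d.prod fun s k => ev ℂ s (ι x) ^ k‖ with hN
  have hN0 : 0 ≤ N := norm_nonneg _
  have h1 : ∀ w ∈ W, ‖∑ d ∈ M, ((n d w : ℤ) : ℂ) * ∑ i, ξ i * ι (c d i)‖ ≤ T ^ B * N := by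
    intro w hw
    have h2 := h x hxL hx hxX c hc w hw
    have h3 : ‖∑ d ∈ M, ((n d w : ℤ) : ℂ) * ∑ i, ξ i * ι (c d i)‖ =
        T ^ B * (T ^ (-B) * ‖∑ d ∈ M, ((n d w : ℤ) : ℂ) * ∑ i, ξ i * ι (c d i)‖) := by
      rw [← mul_assoc, ← Real.rpow_add hTp, add_neg_cancel, Real.rpow_zero, one_mul]
    rw [h3]
    exact mul_le_mul_of_nonneg_left h2 (Real.rpow_nonneg hTp.le _)
  have h5 := J_eval (RingHom.id ℂ) (summable_C (hL0 z hz).2) (hJ ℂ fun d => ∑ i, ξ i * ι (c d i))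
  rw [← coe_eval₂Hom, map_sub, sub_eq_zero, map_sum, map_sum] at h5
  simp only [map_mul, coe_eval₂Hom, eval₂_C, eval₂_X, eval₂_monomial, RingHom.id_apply] at h5
  rw [h5]
  refine (norm_sum_le _ _).trans ?_
  have h4 : ∀ w ∈ W, ‖(∑ d ∈ M, ((n d w : ℤ) : ℂ) * ∑ i, ξ i * ι (c d i)) * ev ℂ w z‖ ≤ T ^ B * N * K := by
    intro w hw
    rw [norm_mul]
    exact mul_le_mul (h1 w hw) (hKL w hw _ hz) (norm_nonneg _)
      (mul_nonneg (Real.rpow_nonneg hTp.le _) hN0)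
  refine (Finset.sum_le_sum h4).trans ?_
  rw [Finset.sum_const, nsmul_eq_mul, Real.rpow_add hTp, Real.rpow_one]
  calc (W.card : ℝ) * (T ^ B * N * K) = (W.card * K) * (T ^ B * N) := by ring
    _ ≤ T * (T ^ B * N) := mul_le_mul_of_nonneg_right hTK (mul_nonneg (Real.rpow_nonneg hTp.le _) hN0)
    _ = T ^ B * T * N := by ring

end Pool.Agent.X142.PL
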